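import Mathlib

set_option autoImplicit false
open MeasureTheory ProbabilityTheory Filter

namespace Pool.Agent.H592F

/-! The two-type frog model on the lattice. The two types are `true` (type 1) and `false`
(type 2). -/

/-- The lattice. -/
abbrev Site (d : ℕ) := Fin d → ℤ

/-- The unit vector in direction `e`. -/
def unitVec {d : ℕ} (e : Fin d × Bool) : Site d := Pi.single e.1 (if e.2 then (1 : ℤ) else -1)

/-- The randomness attached to one site, a triple `(a.1, a.2.1, a.2.2)`: `a.1` is the number of
particles of the site, `a.2.1 (i, k)` is the direction of the `k`-th step of the path of its `i`-th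
particle, and `a.2.2 (i, s)` is a number in `[0,1]` that decides whether this particle advances
in the `s`-th unit of time after its activation. -/
abbrev SiteData (d : ℕ) := ℕ × ((ℕ × ℕ → Fin d × Bool) × (ℕ × ℕ → unitInterval))

/-- The randomness of the whole model. -/
abbrev Config (d : ℕ) := Site d → SiteData d

/-- The law at one site: the number of particles has law `ν`, the directions are uniform, the
numbers in `[0,1]` are uniform, and everything is independent. -/
noncomputable def siteLaw (d : ℕ) [NeZero d] (ν : PMF ℕ) : Measure (SiteData d) :=
  ν.toMeasure.prod
    ((Measure.infinitePi fun _ : ℕ × ℕ => (PMF.uniformOfFintype (Fin d × Bool)).toMeasure).prod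
      (Measure.infinitePi fun _ : ℕ × ℕ => (volume : Measure unitInterval)))

/-- The law of the model: the data of different sites are independent with law `siteLaw`. -/
noncomputable def frogLaw (d : ℕ) [NeZero d] (ν : PMF ℕ) : Measure (Config d) :=
  Measure.infinitePi fun _ : Site d => siteLaw d ν

open Classical in
/-- The number of steps that the `i`-th particle of a site makes during its first `u` units of
active time, if it advances with probability `p` in each unit of time. -/
noncomputable def stepsMade {d : ℕ} (a : SiteData d) (p : ℝ) (i u : ℕ) : ℕ :=
  ((Finset.range u).filter fun s => ((a.2.2 (i, s) : unitInterval) : ℝ) ≤ p).card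

/-- Its displacement during this time. -/
noncomputable def disp {d : ℕ} (a : SiteData d) (p : ℝ) (i u : ℕ) : Site d :=
  ∑ k ∈ Finset.range (stepsMade a p i u), unitVec (a.2.1 (i, k))

/-- A state of the process: `none` for a site not yet discovered, `some (j, s)` for a site
discovered at time `s` by type `j`. -/
abbrev State (d : ℕ) := Site d → Option (Bool × ℕ)

/-- If the discovered sites are described by `st`, some active particle of type `j` is at `y` at
time `t`. Type `j` advances with probability `p j`. -/
def Present {d : ℕ} (ω : Config d) (p : Bool → ℝ) (st : State d) (t : ℕ) (j : Bool)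
    (y : Site d) : Prop :=
  ∃ x s, st x = some (j, s) ∧ ∃ i < (ω x).1, x + disp (ω x) (p j) i (t - s) = y

open Classical in
/-- The state at time `t` from the state before: an undiscovered site at which active
particles are present is discovered by their type, and by type `tie t y` if both types are
present. -/
noncomputable def update {d : ℕ} (ω : Config d) (p : Bool → ℝ) (tie : ℕ → Site d → Bool)
    (t : ℕ) (st : State d) : State d := fun y =>
  if st y ≠ none then st y
  else if Present ω p st t true y then
    (if Present ω p st t false y then some (tie t y, t) else some (true, t))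
  else if Present ω p st t false y then some (false, t)
  else none

/-- The state at each time, when the sites `x` with `init x = some j` are discovered by type `j`
at time `0`. -/
noncomputable def state {d : ℕ} (ω : Config d) (p : Bool → ℝ) (tie : ℕ → Site d → Bool)
    (init : Site d → Option Bool) : ℕ → State d
  | 0 => fun x => (init x).map fun j => (j, 0)
  | t + 1 => update ω p tie (t + 1) (state ω p tie init t)

/-- Initially the origin has type 1, the site `z` has type 2. -/
def twoStart {d : ℕ} (z : Site d) : Site d → Option Bool :=
  fun x => if x = 0 then some true else if x = z then some false else none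

/-- Type `j` activates infinitely many particles. -/
def ActivatesInfinitely {d : ℕ} (ω : Config d) (p : Bool → ℝ) (tie : ℕ → Site d → Bool)
    (init : Site d → Option Bool) (j : Bool) : Prop :=
  {q : Site d × ℕ | q.2 < (ω q.1).1 ∧ ∃ t s, state ω p tie init t q.1 = some (j, s)}.Infinite

/-- The two types, with jump probabilities `p true` and `p false`, can coexist: for some `z`, with
positive probability both types activate infinitely many particles. The tie-breaking rule `tie`
may depend on everything. -/
def CanCoexist (d : ℕ) [NeZero d] (ν : PMF ℕ) (p : Bool → ℝ)
    (tie : Config d → ℕ → Site d → Bool) : Prop :=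
  ∃ z : Site d, z ≠ 0 ∧
    0 < frogLaw d ν {ω | ActivatesInfinitely ω p (tie ω) (twoStart z) true ∧
      ActivatesInfinitely ω p (tie ω) (twoStart z) false}

/-- The set of sites discovered by time `n` in the one-type process with jump probability `p`. -/
def discovered {d : ℕ} (ω : Config d) (p : ℝ) (n : ℕ) : Set (Site d) :=
  {x | state ω (fun _ => p) (fun _ _ => true) (fun x => if x = 0 then some true else none) n x
    ≠ none}

/-- The union of the unit cubes centred at the points of `S`. -/
def fatten {d : ℕ} (S : Set (Site d)) : Set (Fin d → ℝ) :=
  {u | ∃ y ∈ S, ∀ j, (y j : ℝ) - 1 / 2 < u j ∧ u j ≤ (y j : ℝ) + 1 / 2}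

/-- `A` is the asymptotic shape of the one-type process: a compact convex set such that,
conditionally on a particle at the origin, almost surely for every `ε` the fattened set of sites
discovered by time `n` lies between `(1 - ε) n A` and `(1 + ε) n A` for all large `n`. -/
def IsShape (d : ℕ) [NeZero d] (ν : PMF ℕ) (p : ℝ) (A : Set (Fin d → ℝ)) : Prop :=
  IsCompact A ∧ Convex ℝ A ∧
    ∀ᵐ ω ∂(frogLaw d ν), 1 ≤ (ω 0).1 → ∀ ε : ℝ, 0 < ε → ε < 1 → ∀ᶠ n : ℕ in atTop,
      (∀ a ∈ A, ((1 - ε) * n) • a ∈ fatten (discovered ω p n)) ∧
      (∀ u ∈ fatten (discovered ω p n), ∃ a ∈ A, u = ((1 + ε) * n) • a)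

end Pool.Agent.H592F
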