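import Mathlib

set_option autoImplicit false
open MeasureTheory ProbabilityTheory
open scoped ENNReal

namespace Pool.Agent.H592F

noncomputable section

/-! Oriented site percolation at high density survives: a renormalisation proof. -/

/-- pairs of integers -/
abbrev P2 := ℤ × ℤ

/-- more than 3 apart -/
def far (s t : P2) : Prop := 3 < |s.1 - t.1| ∨ 3 < |s.2 - t.2|

/-- within 3 -/
def near (s t : P2) : Prop := |s.1 - t.1| ≤ 3 ∧ |s.2 - t.2| ≤ 3

/-- the scaling map -/
def ph (v : P2) : P2 := (59 * v.1 + 10 * v.2, 10 * v.1 + 59 * v.2)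

/-- the region used by a renormalised site -/
def Reg (v : P2) : Finset P2 :=
  Finset.Icc ((ph v).1 - 72) ((ph v).1 + 72) ×ˢ Finset.Icc ((ph v).2 - 72) ((ph v).2 + 72)

theorem mem_Reg {v s : P2} : s ∈ Reg v ↔
    ((ph v).1 - 72 ≤ s.1 ∧ s.1 ≤ (ph v).1 + 72) ∧ ((ph v).2 - 72 ≤ s.2 ∧ s.2 ≤ (ph v).2 + 72) := by
  unfold Reg
  rw [Finset.mem_product, Finset.mem_Icc, Finset.mem_Icc]

theorem card_Reg (v : P2) : (Reg v).card = 21025 := by
  unfold Reg
  rw [Finset.card_product, Int.card_Icc, Int.card_Icc]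
  have h1 : ((ph v).1 + 72 + 1 - ((ph v).1 - 72)).toNat = 145 := by
    have : (ph v).1 + 72 + 1 - ((ph v).1 - 72) = 145 := by ring
    rw [this]; rfl
  have h2 : ((ph v).2 + 72 + 1 - ((ph v).2 - 72)).toNat = 145 := by
    have : (ph v).2 + 72 + 1 - ((ph v).2 - 72) = 145 := by ring
    rw [this]; rfl
  rw [h1, h2]

/-- bad sites at level `k` -/
def bad (B : P2 → Prop) : ℕ → P2 → Prop
  | 0, v => B v
  | k + 1, v => ∃ s ∈ Reg v, ∃ t ∈ Reg v, far s t ∧ bad B k s ∧ bad B k t

/-- the sites on which badness at level `k` depends -/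
def dep : ℕ → P2 → Finset P2
  | 0, v => {v}
  | k + 1, v => (Reg v).biUnion (dep k)

theorem bad_congr (B B' : P2 → Prop) (k : ℕ) (v : P2) (h : ∀ x ∈ dep k v, B x ↔ B' x) :
    bad B k v ↔ bad B' k v := by
  induction k generalizing v with
  | zero => exact h v (by simp [dep])
  | succ k ih =>
    have h2 : ∀ s ∈ Reg v, (bad B k s ↔ bad B' k s) := fun s hs =>
      ih s fun x hx => h x (by
        simp only [dep, Finset.mem_biUnion]
        exact ⟨s, hs, hx⟩)
    constructor
    · rintro ⟨s, hs, t, ht, hf, h3, h4⟩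
      exact ⟨s, hs, t, ht, hf, (h2 s hs).mp h3, (h2 t ht).mp h4⟩
    · rintro ⟨s, hs, t, ht, hf, h3, h4⟩
      exact ⟨s, hs, t, ht, hf, (h2 s hs).mpr h3, (h2 t ht).mpr h4⟩

theorem dep_near (k : ℕ) (s t x : P2) (hs : x ∈ dep k s) (ht : x ∈ dep k t) : ¬ far s t := by
  induction k generalizing s t x with
  | zero =>
    simp only [dep, Finset.mem_singleton] at hs ht
    subst hs
    subst ht
    rintro (h | h) <;> simp at h
  | succ k ih =>
    simp only [dep, Finset.mem_biUnion] at hs ht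
    obtain ⟨s', hs', hxs⟩ := hs
    obtain ⟨t', ht', hxt⟩ := ht
    have h := ih s' t' x hxs hxt
    rw [mem_Reg] at hs' ht'
    unfold far at h ⊢
    push Not at h ⊢
    obtain ⟨h1, h2⟩ := h
    rw [abs_le] at h1 h2
    unfold ph at hs' ht'
    simp only at hs' ht'
    rw [abs_le, abs_le]
    refine ⟨⟨?_, ?_⟩, ⟨?_, ?_⟩⟩ <;> omega

/-- sites reached by oriented paths through good sites -/
inductive Wet (B : P2 → Prop) : P2 → Prop
  | zero : Wet B (0, 0)
  | right {v : P2} : Wet B v → ¬ B v → Wet B (v.1 + 1, v.2)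
  | up {v : P2} : Wet B v → ¬ B v → Wet B (v.1, v.2 + 1)

/-- no bad site nearby -/
def safe (C : P2 → Prop) (s : P2) : Prop := ∀ u, near u s → ¬ C u

/-- wet at level `k` -/
def wet (B : P2 → Prop) : ℕ → P2 → Prop
  | 0, v => Wet B v
  | k + 1, v => ∃ s : P2, (s = ph v ∨ s = ((ph v).1 - 10, (ph v).2 + 10)) ∧
      safe (bad B k) s ∧ wet B k s

theorem seg_right (C W : P2 → Prop) (h1 : ∀ v, W v → ¬ C v → W (v.1 + 1, v.2))
    (s : P2) (hw : W s) (n : ℕ) (hn : ∀ i : ℕ, i < n → ¬ C (s.1 + i, s.2)) :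
    W (s.1 + n, s.2) := by
  induction n with
  | zero => simpa using hw
  | succ n ih =>
    have h2 := h1 _ (ih fun i hi => hn i (by omega)) (hn n (by omega))
    have : ((s.1 + (n : ℤ), s.2).1 + 1, (s.1 + (n : ℤ), s.2).2) = (s.1 + ((n + 1 : ℕ) : ℤ), s.2) := by
      simp only [Prod.mk.injEq, and_true]
      push_cast
      ring
    rw [this] at h2
    exact h2

theorem seg_up (C W : P2 → Prop) (h1 : ∀ v, W v → ¬ C v → W (v.1, v.2 + 1))
    (s : P2) (hw : W s) (n : ℕ) (hn : ∀ i : ℕ, i < n → ¬ C (s.1, s.2 + i)) :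
    W (s.1, s.2 + n) := by
  induction n with
  | zero => simpa using hw
  | succ n ih =>
    have h2 := h1 _ (ih fun i hi => hn i (by omega)) (hn n (by omega))
    have : ((s.1, s.2 + (n : ℤ)).1, (s.1, s.2 + (n : ℤ)).2 + 1) = (s.1, s.2 + ((n + 1 : ℕ) : ℤ)) := by
      simp only [Prod.mk.injEq, true_and]
      push_cast
      ring
    rw [this] at h2
    exact h2

/-- routing around a cluster of bad sites -/
theorem route (C W : P2 → Prop) (h1 : ∀ v, W v → ¬ C v → W (v.1 + 1, v.2))
    (h2 : ∀ v, W v → ¬ C v → W (v.1, v.2 + 1)) (x y : ℤ) (α β : ℕ) (hα : 10 ≤ α)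
    (hno : ∀ b b' : P2, (x - 3 ≤ b.1 ∧ b.1 ≤ x + α + 3 ∧ y - 3 ≤ b.2 ∧ b.2 ≤ y + β + 13) →
      (x - 3 ≤ b'.1 ∧ b'.1 ≤ x + α + 3 ∧ y - 3 ≤ b'.2 ∧ b'.2 ≤ y + β + 13) →
      C b → C b' → near b b')
    (hs : safe C (x, y)) (hw : W (x, y)) :
    ∃ s' : P2, (s' = (x + α, y + β) ∨ s' = (x + α - 10, y + β + 10)) ∧ safe C s' ∧ W s' := by
  by_cases hcase : safe C (x + α, y + β) ∧ (∀ i : ℕ, i < α → ¬ C (x + i, y)) ∧
      (∀ i : ℕ, i < β → ¬ C (x + α, y + i))
  · obtain ⟨hs1, hr, hu⟩ := hcase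
    refine ⟨(x + α, y + β), Or.inl rfl, hs1, ?_⟩
    have w1 := seg_right C W h1 (x, y) hw α hr
    exact seg_up C W h2 _ w1 β hu
  · -- there is a bad site on the first route
    have hb : ∃ b : P2, C b ∧ ((|b.1 - (x + α)| ≤ 3 ∧ |b.2 - (y + β)| ≤ 3) ∨
        (b.2 = y ∧ x ≤ b.1 ∧ b.1 ≤ x + α) ∨ (b.1 = x + α ∧ y ≤ b.2 ∧ b.2 ≤ y + β)) := by
      by_contra hcon
      apply hcase
      refine ⟨?_, ?_, ?_⟩
      · intro u hu hC
        exact hcon ⟨u, hC, Or.inl hu⟩
      · intro i hi hC
        exact hcon ⟨_, hC, Or.inr (Or.inl ⟨rfl, by simp, by simp; omega⟩)⟩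
      · intro i hi hC
        exact hcon ⟨_, hC, Or.inr (Or.inr ⟨rfl, by simp, by simp; omega⟩)⟩
    obtain ⟨b, hbC, hb⟩ := hb
    have key : ∀ b' : P2, C b' → ((|b'.1 - (x + α - 10)| ≤ 3 ∧ |b'.2 - (y + β + 10)| ≤ 3) ∨
        (b'.1 = x ∧ y ≤ b'.2 ∧ b'.2 ≤ y + β + 10) ∨
        (b'.2 = y + β + 10 ∧ x ≤ b'.1 ∧ b'.1 ≤ x + α - 10)) → False := by
      intro b' hb'C hb'
      have hα' : (10 : ℤ) ≤ α := by exact_mod_cast hα
      have hβ' : (0 : ℤ) ≤ β := Int.natCast_nonneg β
      have hn : near b b' := by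
        refine hno b b' ?_ ?_ hbC hb'C
        · rcases hb with ⟨h3, h4⟩ | ⟨h3, h4, h5⟩ | ⟨h3, h4, h5⟩
          · rw [abs_le] at h3 h4
            refine ⟨?_, ?_, ?_, ?_⟩ <;> omega
          · refine ⟨?_, ?_, ?_, ?_⟩ <;> omega
          · refine ⟨?_, ?_, ?_, ?_⟩ <;> omega
        · rcases hb' with ⟨h3, h4⟩ | ⟨h3, h4, h5⟩ | ⟨h3, h4, h5⟩
          · rw [abs_le] at h3 h4
            refine ⟨?_, ?_, ?_, ?_⟩ <;> omega
          · refine ⟨?_, ?_, ?_, ?_⟩ <;> omega
          · refine ⟨?_, ?_, ?_, ?_⟩ <;> omega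
      obtain ⟨hn1, hn2⟩ := hn
      rw [abs_le] at hn1 hn2
      by_cases hcorner : b.2 = y ∧ b'.1 = x ∧ x ≤ b.1 ∧ y ≤ b'.2
      · obtain ⟨h3, h4, h5, h6⟩ := hcorner
        refine hs b ⟨?_, ?_⟩ hbC
        · simp only
          rw [abs_le]
          constructor <;> omega
        · simp only
          rw [abs_le]
          constructor <;> omega
      · rcases hb with ⟨h3, h4⟩ | ⟨h3, h4, h5⟩ | ⟨h3, h4, h5⟩
        · rw [abs_le] at h3 h4
          rcases hb' with ⟨h6, h7⟩ | ⟨h6, h7, h8⟩ | ⟨h6, h7, h8⟩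
          · rw [abs_le] at h6 h7
            omega
          · omega
          · omega
        · rcases hb' with ⟨h6, h7⟩ | ⟨h6, h7, h8⟩ | ⟨h6, h7, h8⟩
          · rw [abs_le] at h6 h7
            omega
          · exact hcorner ⟨h3, h6, h4, h7⟩
          · omega
        · rcases hb' with ⟨h6, h7⟩ | ⟨h6, h7, h8⟩ | ⟨h6, h7, h8⟩
          · rw [abs_le] at h6 h7
            omega
          · omega
          · omega
    refine ⟨(x + α - 10, y + β + 10), Or.inr rfl, ?_, ?_⟩
    · intro u hu hC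
      exact key u hC (Or.inl hu)
    · have w1 := seg_up C W h2 (x, y) hw (β + 10) (by
        intro i hi hC
        refine key _ hC (Or.inr (Or.inl ⟨rfl, by simp, ?_⟩))
        simp only
        push_cast at hi ⊢
        omega)
      have w2 := seg_right C W h1 _ w1 (α - 10) (by
        intro i hi hC
        refine key _ hC (Or.inr (Or.inr ⟨?_, by simp, ?_⟩))
        · simp only
          push_cast
          ring
        · simp only
          omega)
      have : ((x, y + ((β + 10 : ℕ) : ℤ)).1 + ((α - 10 : ℕ) : ℤ), (x, y + ((β + 10 : ℕ) : ℤ)).2)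
          = (x + α - 10, y + β + 10) := by
        simp only [Prod.mk.injEq]
        push_cast [Nat.cast_sub hα]
        constructor <;> ring
      rw [this] at w2
      exact w2

theorem not_far_iff {s t : P2} : ¬ far s t ↔ near s t := by
  unfold far near
  push Not
  rfl

/-- wetness passes from a good site to its neighbours, at every level -/
theorem transfer (B : P2 → Prop) (k : ℕ) : ∀ v, wet B k v → ¬ bad B k v →
    wet B k (v.1 + 1, v.2) ∧ wet B k (v.1, v.2 + 1) := by
  induction k with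
  | zero => intro v hw hb; exact ⟨Wet.right hw hb, Wet.up hw hb⟩
  | succ k ih =>
    rintro v ⟨s, hs, hsafe, hsw⟩ hb
    have hno : ∀ b b' : P2, b ∈ Reg v → b' ∈ Reg v → bad B k b → bad B k b' → near b b' := by
      intro b b' h1 h2 h3 h4
      rw [← not_far_iff]
      intro hf
      exact hb ⟨b, h1, b', h2, hf, h3, h4⟩
    have hr := route (bad B k) (wet B k) (fun v hw hb => (ih v hw hb).1)
      (fun v hw hb => (ih v hw hb).2)
    have e1 : ph (v.1 + 1, v.2) = ((ph v).1 + 59, (ph v).2 + 10) := by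
      unfold ph; simp only [Prod.mk.injEq]; constructor <;> ring
    have e2 : ph (v.1, v.2 + 1) = ((ph v).1 + 10, (ph v).2 + 59) := by
      unfold ph; simp only [Prod.mk.injEq]; constructor <;> ring
    set X := (ph v).1
    set Y := (ph v).2
    rcases hs with hs | hs
    · have hs' : s = (X, Y) := hs
      subst hs'
      constructor
      · obtain ⟨s', hs', h3, h4⟩ := hr X Y 59 10 (by norm_num) (by
          intro b b' h3 h4 h5 h6
          refine hno b b' ?_ ?_ h5 h6
          · rw [mem_Reg]; push_cast at h3; constructor <;> constructor <;> omega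
          · rw [mem_Reg]; push_cast at h4; constructor <;> constructor <;> omega) hsafe hsw
        refine ⟨s', ?_, h3, h4⟩
        rw [e1]
        push_cast at hs'
        rcases hs' with h | h
        · left; rw [h]
        · right; rw [h]
      · obtain ⟨s', hs', h3, h4⟩ := hr X Y 10 59 (by norm_num) (by
          intro b b' h3 h4 h5 h6
          refine hno b b' ?_ ?_ h5 h6
          · rw [mem_Reg]; push_cast at h3; constructor <;> constructor <;> omega
          · rw [mem_Reg]; push_cast at h4; constructor <;> constructor <;> omega) hsafe hsw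
        refine ⟨s', ?_, h3, h4⟩
        rw [e2]
        push_cast at hs'
        rcases hs' with h | h
        · left; rw [h]
        · right; rw [h]
    · subst hs
      constructor
      · obtain ⟨s', hs', h3, h4⟩ := hr (X - 10) (Y + 10) 69 0 (by norm_num) (by
          intro b b' h3 h4 h5 h6
          refine hno b b' ?_ ?_ h5 h6
          · rw [mem_Reg]; push_cast at h3; constructor <;> constructor <;> omega
          · rw [mem_Reg]; push_cast at h4; constructor <;> constructor <;> omega) hsafe hsw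
        refine ⟨s', ?_, h3, h4⟩
        rw [e1]
        push_cast at hs'
        rcases hs' with h | h
        · left; rw [h]; simp only [Prod.mk.injEq]; constructor <;> ring
        · right; rw [h]; simp only [Prod.mk.injEq]; constructor <;> ring
      · obtain ⟨s', hs', h3, h4⟩ := hr (X - 10) (Y + 10) 20 49 (by norm_num) (by
          intro b b' h3 h4 h5 h6
          refine hno b b' ?_ ?_ h5 h6
          · rw [mem_Reg]; push_cast at h3; constructor <;> constructor <;> omega
          · rw [mem_Reg]; push_cast at h4; constructor <;> constructor <;> omega) hsafe hsw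
        refine ⟨s', ?_, h3, h4⟩
        rw [e2]
        push_cast at hs'
        rcases hs' with h | h
        · left; rw [h]; simp only [Prod.mk.injEq]; constructor <;> ring
        · right; rw [h]; simp only [Prod.mk.injEq]; constructor <;> ring

theorem wet_sum (B : P2 → Prop) (k : ℕ) (v : P2) (h : wet B k v) :
    ∃ x, Wet B x ∧ x.1 + x.2 = 69 ^ k * (v.1 + v.2) := by
  induction k generalizing v with
  | zero => exact ⟨v, h, by simp⟩
  | succ k ih =>
    obtain ⟨s, hs, _, hw⟩ := h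
    obtain ⟨x, hx, hsum⟩ := ih s hw
    refine ⟨x, hx, ?_⟩
    rw [hsum, pow_succ]
    have : s.1 + s.2 = 69 * (v.1 + v.2) := by
      rcases hs with h | h
      · rw [h]; unfold ph; simp only; ring
      · rw [h]; unfold ph; simp only; ring
    rw [this]
    ring

/-- survival -/
theorem perc_det (B : P2 → Prop) (h : ∀ k, safe (bad B k) (0, 0)) (N : ℕ) :
    ∃ x, Wet B x ∧ (N : ℤ) ≤ x.1 + x.2 := by
  have h0 : ph (0, 0) = (0, 0) := rfl
  have hw : ∀ k, wet B k (0, 0) := by
    intro k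
    induction k with
    | zero => exact Wet.zero
    | succ k ih => exact ⟨(0, 0), Or.inl h0.symm, h k, ih⟩
  have h1 : wet B N (0 + 1, 0) :=
    (transfer B N (0, 0) (hw N) (h N (0, 0) ⟨by simp, by simp⟩)).1
  obtain ⟨x, hx, hsum⟩ := wet_sum B N _ h1
  refine ⟨x, hx, ?_⟩
  rw [hsum]
  have h2 : N < 69 ^ N := Nat.lt_pow_self (by norm_num)
  have h3 : (N : ℤ) < 69 ^ N := by exact_mod_cast h2
  linarith

end

end Pool.Agent.H592F
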