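import Mathlib
import Pool.Agent.H592F.Orient

set_option autoImplicit false
open MeasureTheory ProbabilityTheory
open scoped ENNReal

namespace Pool.Agent.H592F

noncomputable section

variable {Ω : Type*} [mΩ : MeasurableSpace Ω]

/-- the configuration of bad sites -/
def Bof (ξ : P2 → Ω → Bool) (ω : Ω) (x : P2) : Prop := ξ x ω = true

/-- the cylinder describing badness -/
def badCyl (k : ℕ) (v : P2) : Set ((dep k v) → Bool) :=
  {b | bad (fun x => ∃ h : x ∈ dep k v, b ⟨x, h⟩ = true) k v}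

theorem bad_eq (ξ : P2 → Ω → Bool) (k : ℕ) (v : P2) :
    {ω | bad (Bof ξ ω) k v} = (fun ω (x : dep k v) => ξ x ω) ⁻¹' badCyl k v := by
  ext ω
  simp only [Set.mem_preimage, badCyl, Set.mem_ofPred_eq]
  refine bad_congr _ _ k v fun x hx => ?_
  unfold Bof
  constructor
  · intro h; exact ⟨hx, h⟩
  · rintro ⟨_, h⟩; exact h

/-- independence of disjoint finite parts -/
def FinIndep (P : Measure Ω) (ξ : P2 → Ω → Bool) : Prop :=
  ∀ S T : Finset P2, Disjoint S T → IndepFun (fun ω (x : S) => ξ x ω) (fun ω (x : T) => ξ x ω) P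

theorem bad_indep (P : Measure Ω) (ξ : P2 → Ω → Bool)
    (hi : FinIndep P ξ) (k : ℕ) (s t : P2) (h : far s t) :
    P {ω | bad (Bof ξ ω) k s ∧ bad (Bof ξ ω) k t}
      = P {ω | bad (Bof ξ ω) k s} * P {ω | bad (Bof ξ ω) k t} := by
  have hdis : Disjoint (dep k s) (dep k t) := by
    rw [Finset.disjoint_left]
    intro x h1 h2
    exact dep_near k s t x h1 h2 h
  have h1 := hi (dep k s) (dep k t) hdis
  have h2 : {ω | bad (Bof ξ ω) k s ∧ bad (Bof ξ ω) k t}
      = {ω | bad (Bof ξ ω) k s} ∩ {ω | bad (Bof ξ ω) k t} := rfl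
  rw [h2, bad_eq, bad_eq]
  exact h1.measure_inter_preimage_eq_mul _ _ (Set.toFinite _).measurableSet
    (Set.toFinite _).measurableSet

/-- probability bound at level `k` -/
def qq (k : ℕ) : ℝ := 1 / 442050625 * (1 / 2) ^ (k + 1)

theorem bad_prob (P : Measure Ω) [IsProbabilityMeasure P] (ξ : P2 → Ω → Bool)
    (hi : FinIndep P ξ)
    (h0 : ∀ v, P {ω | ξ v ω = true} ≤ ENNReal.ofReal (1 / 884101250)) (k : ℕ) (v : P2) :
    P {ω | bad (Bof ξ ω) k v} ≤ ENNReal.ofReal (qq k) := by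
  induction k generalizing v with
  | zero =>
    refine (h0 v).trans (ENNReal.ofReal_le_ofReal ?_)
    unfold qq
    norm_num
  | succ k ih =>
    have hsub : {ω | bad (Bof ξ ω) (k + 1) v} ⊆ ⋃ s ∈ Reg v, ⋃ t ∈ Reg v,
        {ω | far s t ∧ bad (Bof ξ ω) k s ∧ bad (Bof ξ ω) k t} := by
      rintro ω ⟨s, hs, t, ht, hf, h1, h2⟩
      rw [Set.mem_iUnion₂]
      refine ⟨s, hs, ?_⟩
      rw [Set.mem_iUnion₂]
      exact ⟨t, ht, hf, h1, h2⟩
    refine (measure_mono hsub).trans ((measure_biUnion_finset_le _ _).trans ?_)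
    have hq0 : 0 ≤ qq k := by unfold qq; positivity
    have hin : ∀ s ∈ Reg v, P (⋃ t ∈ Reg v,
        {ω | far s t ∧ bad (Bof ξ ω) k s ∧ bad (Bof ξ ω) k t})
          ≤ ENNReal.ofReal (21025 * (qq k * qq k)) := by
      intro s _
      refine (measure_biUnion_finset_le _ _).trans ?_
      have hin2 : ∀ t ∈ Reg v, P {ω | far s t ∧ bad (Bof ξ ω) k s ∧ bad (Bof ξ ω) k t}
          ≤ ENNReal.ofReal (qq k * qq k) := by
        intro t _
        by_cases hf : far s t
        · have : {ω | far s t ∧ bad (Bof ξ ω) k s ∧ bad (Bof ξ ω) k t}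
              = {ω | bad (Bof ξ ω) k s ∧ bad (Bof ξ ω) k t} := by
            ext ω; simp only [Set.mem_ofPred_eq, hf, true_and]
          rw [this, bad_indep P ξ hi k s t hf, ENNReal.ofReal_mul hq0]
          exact mul_le_mul' (ih s) (ih t)
        · have : {ω | far s t ∧ bad (Bof ξ ω) k s ∧ bad (Bof ξ ω) k t} = ∅ := by
            ext ω; simp only [Set.mem_ofPred_eq, hf, false_and, Set.mem_empty_iff_false]
          rw [this]; simp
      calc _ ≤ ∑ t ∈ Reg v, ENNReal.ofReal (qq k * qq k) := Finset.sum_le_sum hin2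
        _ = _ := by
            rw [Finset.sum_const, card_Reg, nsmul_eq_mul, ENNReal.ofReal_mul (p := 21025) (by norm_num)]
            norm_num
    calc _ ≤ ∑ s ∈ Reg v, ENNReal.ofReal (21025 * (qq k * qq k)) := Finset.sum_le_sum hin
      _ = ENNReal.ofReal (21025 * (21025 * (qq k * qq k))) := by
          rw [Finset.sum_const, card_Reg, nsmul_eq_mul, ENNReal.ofReal_mul (p := 21025) (by norm_num)]
          norm_num
      _ ≤ ENNReal.ofReal (qq (k + 1)) := by
          refine ENNReal.ofReal_le_ofReal ?_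
          unfold qq
          have h1 : (0 : ℝ) < (1 / 2) ^ (k + 1) := by positivity
          have h2 : ((1 : ℝ) / 2) ^ (k + 1) ≤ 1 / 2 := by
            calc ((1 : ℝ) / 2) ^ (k + 1) ≤ (1 / 2) ^ 1 :=
                  pow_le_pow_of_le_one (by norm_num) (by norm_num) (by omega)
              _ = 1 / 2 := by norm_num
          have h3 : ((1 : ℝ) / 2) ^ (k + 1 + 1) = (1 / 2) ^ (k + 1) * (1 / 2) := pow_succ _ _
          rw [h3]
          nlinarith

/-- survival with probability at least 3/4, as an upper bound for an explicit failure event -/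
theorem fail_prob (P : Measure Ω) [IsProbabilityMeasure P] (ξ : P2 → Ω → Bool)
    (hi : FinIndep P ξ)
    (h0 : ∀ v, P {ω | ξ v ω = true} ≤ ENNReal.ofReal (1 / 884101250)) :
    P {ω | ∃ k, ¬ safe (bad (Bof ξ ω) k) (0, 0)} ≤ ENNReal.ofReal (1 / 4) := by
  set W : Finset P2 := Finset.Icc (-3) 3 ×ˢ Finset.Icc (-3) 3 with hW
  have hcW : W.card = 49 := by rw [hW, Finset.card_product, Int.card_Icc]; rfl
  have hsub : {ω | ∃ k, ¬ safe (bad (Bof ξ ω) k) (0, 0)}
      ⊆ ⋃ k : ℕ, ⋃ u ∈ W, {ω | bad (Bof ξ ω) k u} := by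
    rintro ω ⟨k, hk⟩
    unfold safe at hk
    push Not at hk
    obtain ⟨u, hu, hb⟩ := hk
    rw [Set.mem_iUnion]
    refine ⟨k, ?_⟩
    rw [Set.mem_iUnion₂]
    refine ⟨u, ?_, hb⟩
    obtain ⟨h1, h2⟩ := hu
    simp only [sub_zero] at h1 h2
    rw [abs_le] at h1 h2
    rw [hW, Finset.mem_product, Finset.mem_Icc, Finset.mem_Icc]
    exact ⟨h1, h2⟩
  refine (measure_mono hsub).trans ((measure_iUnion_le _).trans ?_)
  have h1 : ∀ k : ℕ, P (⋃ u ∈ W, {ω | bad (Bof ξ ω) k u}) ≤ ENNReal.ofReal (49 * qq k) := by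
    intro k
    refine (measure_biUnion_finset_le _ _).trans ?_
    calc _ ≤ ∑ u ∈ W, ENNReal.ofReal (qq k) := Finset.sum_le_sum fun u _ => bad_prob P ξ hi h0 k u
      _ = _ := by
          rw [Finset.sum_const, hcW, nsmul_eq_mul, ENNReal.ofReal_mul (by norm_num)]
          norm_num
  refine (ENNReal.tsum_le_tsum h1).trans ?_
  have hs : HasSum (fun k : ℕ => 49 * qq k) (49 * (1 / 442050625)) := by
    unfold qq
    have h2 := hasSum_geometric_of_lt_one (r := (1 / 2 : ℝ)) (by norm_num) (by norm_num)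
    have h3 := h2.mul_left (49 * (1 / 442050625 * (1 / 2)))
    have e : (49 * (1 / 442050625 * (1 / 2)) * (1 - 1 / 2)⁻¹ : ℝ) = 49 * (1 / 442050625) := by
      norm_num
    have e2 : (fun k : ℕ => (49 : ℝ) * (1 / 442050625 * (1 / 2) ^ (k + 1)))
        = fun k => 49 * (1 / 442050625 * (1 / 2)) * (1 / 2) ^ k := by
      funext k
      rw [pow_succ]
      ring
    rw [e2, ← e]
    exact h3
  rw [← ENNReal.ofReal_tsum_of_nonneg (fun k => by unfold qq; positivity) hs.summable, hs.tsum_eq]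
  refine ENNReal.ofReal_le_ofReal ?_
  norm_num

end

end Pool.Agent.H592F
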