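import Mathlib
import Pool.Agent.H592F.Model
import Pool.Agent.H592F.OrientProb

set_option autoImplicit false
open MeasureTheory ProbabilityTheory Filter

namespace Pool.Agent.H592F

noncomputable section

variable {d : ℕ}

/-- `ℓ¹` distance -/
def dist1 (x y : Site d) : ℤ := ∑ j, |x j - y j|

theorem dist1_self (x : Site d) : dist1 x x = 0 := by simp [dist1]

theorem dist1_triangle (x y z : Site d) : dist1 x z ≤ dist1 x y + dist1 y z := by
  unfold dist1
  rw [← Finset.sum_add_distrib]
  exact Finset.sum_le_sum fun j _ => abs_sub_le _ _ _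

theorem dist1_add_unit (x y : Site d) (e : Fin d × Bool) : dist1 (x + unitVec e) y ≤ dist1 x y + 1 := by
  refine (dist1_triangle (x + unitVec e) x y).trans ?_
  rw [add_comm]
  gcongr
  unfold dist1 unitVec
  simp only [Pi.add_apply, add_sub_cancel_left]
  rw [Finset.sum_eq_single e.1]
  · rw [Pi.single_eq_same]
    split_ifs <;> simp
  · intro j _ hj
    rw [Pi.single_eq_of_ne hj]
    simp
  · intro h
    exact absurd (Finset.mem_univ _) h

theorem dist1_sum (x y : Site d) (n : ℕ) (f : ℕ → Fin d × Bool) :
    dist1 (x + ∑ k ∈ Finset.range n, unitVec (f k)) y ≤ dist1 x y + n := by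
  induction n with
  | zero => simp
  | succ n ih =>
    rw [Finset.sum_range_succ, ← add_assoc]
    refine (dist1_add_unit _ _ _).trans ?_
    push_cast
    linarith

theorem stepsMade_le (a : SiteData d) (p : ℝ) (i u : ℕ) : stepsMade a p i u ≤ u := by
  unfold stepsMade
  refine (Finset.card_filter_le _ _).trans ?_
  simp

theorem dist1_disp (a : SiteData d) (p : ℝ) (i u : ℕ) (x y : Site d) :
    dist1 (x + disp a p i u) y ≤ dist1 x y + u := by
  unfold disp
  refine (dist1_sum x y _ _).trans ?_
  have := stepsMade_le a p i u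
  have h : ((stepsMade a p i u : ℕ) : ℤ) ≤ u := by exact_mod_cast this
  linarith

section

variable {ω : Config d} {p : Bool → ℝ} {tie : ℕ → Site d → Bool} {init : Site d → Option Bool}

theorem state_succ (t : ℕ) : state ω p tie init (t + 1) = update ω p tie (t + 1) (state ω p tie init t) :=
  rfl

theorem state_keep {t : ℕ} {y : Site d} {a : Bool × ℕ} (h : state ω p tie init t y = some a) :
    state ω p tie init (t + 1) y = some a := by
  rw [state_succ]
  unfold update
  rw [if_pos (by rw [h]; simp), h]

theorem state_mono {t t' : ℕ} (htt : t ≤ t') {y : Site d} {a : Bool × ℕ}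
    (h : state ω p tie init t y = some a) : state ω p tie init t' y = some a := by
  induction t', htt using Nat.le_induction with
  | base => exact h
  | succ n _ ih => exact state_keep ih

/-- a newly discovered site -/
theorem state_new {t : ℕ} {y : Site d} {a : Bool × ℕ} (h0 : state ω p tie init t y = none)
    (h : state ω p tie init (t + 1) y = some a) :
    a.2 = t + 1 ∧ Present ω p (state ω p tie init t) (t + 1) a.1 y := by
  rw [state_succ] at h
  unfold update at h
  rw [if_neg (by rw [h0]; simp)] at h
  split_ifs at h with h1 h2 h2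
  · have h3 := Option.some.inj h
    subst h3
    refine ⟨rfl, ?_⟩
    show Present ω p (state ω p tie init t) (t + 1) (tie (t + 1) y) y
    cases tie (t + 1) y
    · exact h2
    · exact h1
  · have h3 := Option.some.inj h
    subst h3
    exact ⟨rfl, h1⟩
  · have h3 := Option.some.inj h
    subst h3
    exact ⟨rfl, h2⟩

theorem state_zero {y : Site d} {j : Bool} {s : ℕ} (h : state ω p tie init 0 y = some (j, s)) :
    init y = some j ∧ s = 0 := by
  unfold state at h
  rw [Option.map_eq_some_iff] at h
  obtain ⟨j', h1, h2⟩ := h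
  simp only [Prod.mk.injEq] at h2
  obtain ⟨rfl, rfl⟩ := h2
  exact ⟨h1, rfl⟩

/-- finite speed -/
theorem state_dist (t : ℕ) : ∀ (y : Site d) (j : Bool) (s : ℕ), state ω p tie init t y = some (j, s) →
    s ≤ t ∧ ∃ x0, init x0 = some j ∧ dist1 y x0 ≤ s := by
  induction t with
  | zero =>
    intro y j s h
    obtain ⟨h1, rfl⟩ := state_zero h
    exact ⟨le_rfl, y, h1, by rw [dist1_self]; simp⟩
  | succ t ih =>
    intro y j s h
    cases h0 : state ω p tie init t y with
    | some a =>
      have h1 := state_keep h0
      rw [h1] at h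
      have h2 := Option.some.inj h
      subst h2
      obtain ⟨h3, h4⟩ := ih y j s h0
      exact ⟨by omega, h4⟩
    | none =>
      obtain ⟨h1, x, s', hx, i, hi, hd⟩ := state_new h0 h
      simp only at h1 hx hd
      subst h1
      obtain ⟨h3, x0, h4, h5⟩ := ih x j s' hx
      refine ⟨le_rfl, x0, h4, ?_⟩
      rw [← hd]
      refine (dist1_disp _ _ _ _ _ _).trans ?_
      have : ((t + 1 - s' : ℕ) : ℤ) = (t : ℤ) + 1 - s' := by
        rw [Nat.cast_sub (by omega)]; push_cast; ring
      rw [this]
      push_cast
      linarith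

/-- a direct jump from `x` in direction `e` -/
def JumpSet (p : ℝ) (e : Fin d × Bool) : Set (SiteData d) :=
  {a | ∃ i < a.1, ((a.2.2 (i, 0) : unitInterval) : ℝ) ≤ p ∧ a.2.1 (i, 0) = e}

theorem jump_disp {a : SiteData d} {q : ℝ} {e : Fin d × Bool} (h : a ∈ JumpSet q e) :
    ∃ i < a.1, disp a q i 1 = unitVec e := by
  obtain ⟨i, hi, h1, h2⟩ := h
  refine ⟨i, hi, ?_⟩
  have : stepsMade a q i 1 = 1 := by
    unfold stepsMade
    rw [Finset.range_one, Finset.filter_singleton, if_pos h1]
    rfl
  unfold disp
  rw [this, Finset.sum_range_one, h2]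

/-- no source of the process is closer than possible -/
def Ahead (init : Site d → Option Bool) (j : Bool) (n : ℕ) (y : Site d) : Prop :=
  (∀ x1, init x1 = some j → (n : ℤ) ≤ dist1 y x1) ∧ (∀ x1, init x1 = some (!j) → (n : ℤ) < dist1 y x1)

theorem full_speed_step {n : ℕ} {x : Site d} {j : Bool} {e : Fin d × Bool}
    (hx : state ω p tie init n x = some (j, n)) (hj : ω x ∈ JumpSet (p j) e)
    (ha : Ahead init j (n + 1) (x + unitVec e)) :
    state ω p tie init (n + 1) (x + unitVec e) = some (j, n + 1) := by
  set y := x + unitVec e with hy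
  have h0 : state ω p tie init n y = none := by
    cases h0 : state ω p tie init n y with
    | none => rfl
    | some a =>
      exfalso
      obtain ⟨h3, x0, h4, h5⟩ := state_dist n y a.1 a.2 h0
      have h3' : ((a.2 : ℕ) : ℤ) ≤ n := by exact_mod_cast h3
      by_cases hja : a.1 = j
      · rw [hja] at h4
        have := ha.1 x0 h4
        push_cast at this
        linarith
      · have hja' : a.1 = !j := by
          cases j <;> cases h : a.1 <;> simp_all
        rw [hja'] at h4
        have := ha.2 x0 h4
        push_cast at this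
        linarith
  have h1 : Present ω p (state ω p tie init n) (n + 1) j y := by
    obtain ⟨i, hi, hd⟩ := jump_disp hj
    refine ⟨x, n, hx, i, hi, ?_⟩
    rw [Nat.add_sub_cancel_left, hd]
  have h2 : ¬ Present ω p (state ω p tie init n) (n + 1) (!j) y := by
    rintro ⟨x', s', hx', i, hi, hd⟩
    obtain ⟨h3, x0, h4, h5⟩ := state_dist n x' (!j) s' hx'
    have h6 := ha.2 x0 h4
    rw [← hd] at h6
    have h7 := dist1_disp (ω x') (p !j) i (n + 1 - s') x' x0
    have : ((n + 1 - s' : ℕ) : ℤ) = (n : ℤ) + 1 - s' := by
      rw [Nat.cast_sub (by omega)]; push_cast; ring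
    rw [this] at h7
    push_cast at h6
    linarith
  rw [state_succ]
  unfold update
  rw [if_neg (by rw [h0]; simp)]
  cases j
  · simp only [Bool.not_false] at h2
    rw [if_neg h2, if_pos h1]
  · simp only [Bool.not_true] at h2
    rw [if_pos h1, if_neg h2]

end

end

end Pool.Agent.H592F
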