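import Mathlib
import Pool.Agent.H592F.Speed

set_option autoImplicit false
open MeasureTheory ProbabilityTheory Filter
open scoped ENNReal

namespace Pool.Agent.H592F

noncomputable section

variable {d : ℕ}

/-! The embedded planar oriented percolation. -/

/-- planar coordinates -/
def pt (i0 i1 : Fin d) (x0 : Site d) (σ : Bool) (a b : ℤ) : Site d :=
  x0 + a • unitVec (i0, σ) + b • unitVec (i1, σ)

theorem pt_right (i0 i1 : Fin d) (x0 : Site d) (σ : Bool) (a b : ℤ) :
    pt i0 i1 x0 σ a b + unitVec (i0, σ) = pt i0 i1 x0 σ (a + 1) b := by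
  unfold pt
  rw [add_smul, one_smul]
  abel

theorem pt_up (i0 i1 : Fin d) (x0 : Site d) (σ : Bool) (a b : ℤ) :
    pt i0 i1 x0 σ a b + unitVec (i1, σ) = pt i0 i1 x0 σ a (b + 1) := by
  unfold pt
  rw [add_smul, one_smul]
  abel

/-- sign -/
def sg (σ : Bool) : ℤ := if σ then 1 else -1

theorem pt_i0 {i0 i1 : Fin d} (h : i0 ≠ i1) (x0 : Site d) (σ : Bool) (a b : ℤ) :
    pt i0 i1 x0 σ a b i0 = x0 i0 + a * sg σ := by
  unfold pt unitVec sg
  simp [Pi.single_eq_of_ne h]

theorem pt_i1 {i0 i1 : Fin d} (h : i0 ≠ i1) (x0 : Site d) (σ : Bool) (a b : ℤ) :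
    pt i0 i1 x0 σ a b i1 = x0 i1 + b * sg σ := by
  unfold pt unitVec sg
  simp [Pi.single_eq_of_ne h.symm]

theorem pt_inj {i0 i1 : Fin d} (h : i0 ≠ i1) (x0 : Site d) (σ : Bool) {a b a' b' : ℤ}
    (he : pt i0 i1 x0 σ a b = pt i0 i1 x0 σ a' b') : a = a' ∧ b = b' := by
  have h1 := congrFun he i0
  have h2 := congrFun he i1
  rw [pt_i0 h, pt_i0 h] at h1
  rw [pt_i1 h, pt_i1 h] at h2
  unfold sg at h1 h2
  cases σ
  · simp at h1 h2
    exact ⟨h1, h2⟩
  · simp at h1 h2
    exact ⟨h1, h2⟩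

/-- first coordinate of a macroscopic site -/
def mx (K : ℕ) (v : P2) : ℤ := (K + 1) * v.1 + K * v.2

/-- good macroscopic sites -/
def MG (i0 i1 : Fin d) (q : ℝ) (K : ℕ) (x0 : Site d) (σ : Bool) (ω : Config d) (v : P2) : Prop :=
  (∀ l ∈ Finset.range (K + 1), ω (pt i0 i1 x0 σ (mx K v + l) v.2) ∈ JumpSet q (i0, σ)) ∧
    ω (pt i0 i1 x0 σ (mx K v + K) v.2) ∈ JumpSet q (i1, σ)

open Classical in
/-- indicator of bad macroscopic sites -/
def xi (i0 i1 : Fin d) (q : ℝ) (K : ℕ) (x0 : Site d) (σ : Bool) (v : P2) (ω : Config d) : Bool :=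
  decide (¬ MG i0 i1 q K x0 σ ω v)

/-- the sites it depends on -/
def blk (i0 i1 : Fin d) (K : ℕ) (x0 : Site d) (σ : Bool) (v : P2) : Finset (Site d) :=
  (Finset.range (K + 1)).image fun l : ℕ => pt i0 i1 x0 σ (mx K v + l) v.2

theorem xi_dep (i0 i1 : Fin d) (q : ℝ) (K : ℕ) (x0 : Site d) (σ : Bool) (v : P2)
    (ω ω' : Config d) (h : ∀ x ∈ blk i0 i1 K x0 σ v, ω x = ω' x) :
    xi i0 i1 q K x0 σ v ω = xi i0 i1 q K x0 σ v ω' := by
  have h1 : ∀ l ∈ Finset.range (K + 1), ω (pt i0 i1 x0 σ (mx K v + l) v.2)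
      = ω' (pt i0 i1 x0 σ (mx K v + l) v.2) := fun l hl =>
    h _ (Finset.mem_image_of_mem _ hl)
  have h2 : MG i0 i1 q K x0 σ ω v ↔ MG i0 i1 q K x0 σ ω' v := by
    unfold MG
    constructor
    · rintro ⟨h3, h4⟩
      refine ⟨fun l hl => ?_, ?_⟩
      · rw [← h1 l hl]; exact h3 l hl
      · rw [← h1 K (by simp)]; exact h4
    · rintro ⟨h3, h4⟩
      refine ⟨fun l hl => ?_, ?_⟩
      · rw [h1 l hl]; exact h3 l hl
      · rw [h1 K (by simp)]; exact h4
  unfold xi
  rw [decide_eq_decide, h2]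

theorem blk_disjoint {i0 i1 : Fin d} (h : i0 ≠ i1) (K : ℕ) (x0 : Site d) (σ : Bool) {v v' : P2}
    (hv : v ≠ v') : Disjoint (blk i0 i1 K x0 σ v) (blk i0 i1 K x0 σ v') := by
  rw [Finset.disjoint_left]
  intro x h1 h2
  unfold blk at h1 h2
  rw [Finset.mem_image] at h1 h2
  obtain ⟨l, hl, rfl⟩ := h1
  obtain ⟨l', hl', he⟩ := h2
  obtain ⟨h3, h4⟩ := pt_inj h x0 σ he
  rw [Finset.mem_range] at hl hl'
  apply hv
  unfold mx at h3
  rw [h4] at h3
  have h5 : ((K : ℤ) + 1) * (v'.1 - v.1) = l - l' := by linarith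
  have h6 : v'.1 - v.1 = 0 := by
    have hl1 : (l : ℤ) ≤ K := by exact_mod_cast (by omega : l ≤ K)
    have hl2 : (l' : ℤ) ≤ K := by exact_mod_cast (by omega : l' ≤ K)
    have hl3 : (0 : ℤ) ≤ l := Int.natCast_nonneg l
    have hl4 : (0 : ℤ) ≤ l' := Int.natCast_nonneg l'
    have hK : (0 : ℤ) ≤ K := Int.natCast_nonneg K
    by_contra hne
    rcases lt_or_gt_of_ne hne with h7 | h7
    · have : ((K : ℤ) + 1) * (v'.1 - v.1) ≤ ((K : ℤ) + 1) * (-1) :=
        mul_le_mul_of_nonneg_left (by omega) (by linarith)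
      linarith
    · have : ((K : ℤ) + 1) * 1 ≤ ((K : ℤ) + 1) * (v'.1 - v.1) :=
        mul_le_mul_of_nonneg_left (by omega) (by linarith)
      linarith
  exact Prod.ext (by linarith) h4.symm

section Run

variable {ω : Config d} {p : Bool → ℝ} {tie : ℕ → Site d → Bool} {init : Site d → Option Bool}

/-- full speed along a row -/
theorem row_run {i0 i1 : Fin d} {x0 : Site d} {σ j : Bool}
    (hA : ∀ a b : ℕ, Ahead init j (a + b) (pt i0 i1 x0 σ a b)) (a b l : ℕ)
    (h0 : state ω p tie init (a + b) (pt i0 i1 x0 σ a b) = some (j, a + b))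
    (hl : ∀ l' < l, ω (pt i0 i1 x0 σ ((a : ℤ) + l') b) ∈ JumpSet (p j) (i0, σ)) :
    state ω p tie init (a + l + b) (pt i0 i1 x0 σ ((a + l : ℕ) : ℤ) b) = some (j, a + l + b) := by
  induction l with
  | zero => simpa using h0
  | succ l ih =>
    have h1 := ih fun l' hl' => hl l' (by omega)
    have h2 := hl l (by omega)
    have h3 := full_speed_step h1 (e := (i0, σ)) (by push_cast; exact h2) (by
      rw [pt_right]
      have := hA (a + l + 1) b
      push_cast at this ⊢
      rw [show a + l + b + 1 = a + l + 1 + b by ring]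
      exact this)
    rw [pt_right] at h3
    push_cast at h3 ⊢
    rw [show a + (l + 1) + b = a + l + b + 1 by ring, show (a : ℤ) + (l + 1) = a + l + 1 by ring]
    exact h3

/-- wet macroscopic sites are discovered at full speed -/
theorem wet_state {i0 i1 : Fin d} {x0 : Site d} {σ j : Bool} {K : ℕ}
    (hA : ∀ a b : ℕ, Ahead init j (a + b) (pt i0 i1 x0 σ a b)) (hinit : init x0 = some j)
    {v : P2} (hv : Wet (Bof (xi i0 i1 (p j) K x0 σ) ω) v) :
    ∃ a b : ℕ, v = ((a : ℤ), (b : ℤ)) ∧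
      state ω p tie init ((K + 1) * a + K * b + b)
        (pt i0 i1 x0 σ (((K + 1) * a + K * b : ℕ) : ℤ) b) = some (j, (K + 1) * a + K * b + b) := by
  induction hv with
  | zero =>
    refine ⟨0, 0, rfl, ?_⟩
    simp only [Nat.mul_zero, Nat.add_zero, Nat.cast_zero]
    have : pt i0 i1 x0 σ 0 0 = x0 := by unfold pt; simp
    rw [this]
    show (init x0).map _ = _
    rw [hinit]
    rfl
  | right hw hb ih =>
    obtain ⟨a, b, rfl, hst⟩ := ih
    have hg : MG i0 i1 (p j) K x0 σ ω ((a : ℤ), (b : ℤ)) := by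
      by_contra hcon
      apply hb
      unfold Bof xi
      simpa using hcon
    refine ⟨a + 1, b, by push_cast; rfl, ?_⟩
    have h1 := row_run hA ((K + 1) * a + K * b) b (K + 1) hst (by
      intro l' hl'
      have := hg.1 l' (Finset.mem_range.mpr hl')
      unfold mx at this
      push_cast at this ⊢
      exact this)
    rw [show (K + 1) * (a + 1) + K * b = (K + 1) * a + K * b + (K + 1) by ring]
    exact h1
  | up hw hb ih =>
    obtain ⟨a, b, rfl, hst⟩ := ih
    have hg : MG i0 i1 (p j) K x0 σ ω ((a : ℤ), (b : ℤ)) := by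
      by_contra hcon
      apply hb
      unfold Bof xi
      simpa using hcon
    refine ⟨a, b + 1, by push_cast; rfl, ?_⟩
    have h1 := row_run hA ((K + 1) * a + K * b) b K hst (by
      intro l' hl'
      have := hg.1 l' (Finset.mem_range.mpr (by omega))
      unfold mx at this
      push_cast at this ⊢
      exact this)
    have h2 := full_speed_step h1 (e := (i1, σ)) (by
      have := hg.2
      unfold mx at this
      push_cast at this ⊢
      exact this) (by
      rw [pt_up]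
      have := hA ((K + 1) * a + K * b + K) (b + 1)
      push_cast at this ⊢
      rw [show (K + 1) * a + K * b + K + b + 1 = (K + 1) * a + K * b + K + (b + 1) by ring]
      exact this)
    rw [pt_up] at h2
    rw [show (K + 1) * a + K * (b + 1) = (K + 1) * a + K * b + K by ring,
      show (K + 1) * a + K * b + K + (b + 1) = (K + 1) * a + K * b + K + b + 1 by ring]
    push_cast at h2 ⊢
    exact h2

end Run

end

end Pool.Agent.H592F
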