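import Mathlib
import Pool.Agent.H592F.Cone

set_option autoImplicit false
open MeasureTheory ProbabilityTheory Filter
open scoped ENNReal

namespace Pool.Agent.H592F

noncomputable section

variable {d : ℕ}

theorem lint_prod {S ι : Type} [MeasurableSpace S] (μ : Measure S) [IsProbabilityMeasure μ]
    (s : Finset ι) (f : ι → S → ℝ≥0∞) (hf : ∀ k, Measurable (f k)) :
    ∫⁻ b : ι → S, ∏ k ∈ s, f k (b k) ∂(Measure.infinitePi fun _ : ι => μ)
      = ∏ k ∈ s, ∫⁻ x, f k x ∂μ := by
  rw [lintegral_prod_eq_prod_lintegral_of_indepFun s (fun k (b : ι → S) => f k (b k))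
    (iIndepFun_infinitePi (P := fun _ : ι => μ) (X := fun k x => f k x) (fun k => hf k))
    (fun k => (hf k).comp (measurable_pi_apply k))]
  refine Finset.prod_congr rfl fun k _ => ?_
  have h4 := lintegral_map (μ := Measure.infinitePi fun _ : ι => μ) (f := f k)
    (g := fun b : ι → S => b k) (hf k) (measurable_pi_apply k)
  rw [Measure.infinitePi_map_eval] at h4
  exact h4.symm

theorem coin_meas (q : ℝ) : MeasurableSet {u : unitInterval | (u : ℝ) ≤ q} :=
  measurableSet_le measurable_subtype_coe measurable_const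

theorem coin_prob (q : ℝ) (h0 : 0 ≤ q) (h1 : q ≤ 1) :
    (volume : Measure unitInterval) {u : unitInterval | (u : ℝ) ≤ q} = ENNReal.ofReal q := by
  have : {u : unitInterval | (u : ℝ) ≤ q} = Set.Iic (⟨q, h0, h1⟩ : unitInterval) := by
    ext u
    simp only [Set.mem_ofPred_eq, Set.mem_Iic]
    exact Iff.rfl
  rw [this, unitInterval.volume_Iic]

theorem coin_prob' (q : ℝ) (h0 : 0 ≤ q) (h1 : q ≤ 1) :
    (volume : Measure unitInterval) {u : unitInterval | ¬ (u : ℝ) ≤ q} = ENNReal.ofReal (1 - q) := by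
  have : {u : unitInterval | ¬ (u : ℝ) ≤ q} = {u : unitInterval | (u : ℝ) ≤ q}ᶜ := rfl
  rw [this, prob_compl_eq_one_sub (coin_meas q), coin_prob q h0 h1, ENNReal.ofReal_sub _ h0,
    ENNReal.ofReal_one]

/-- uniform directions -/
def uD (d : ℕ) [NeZero d] : Measure (Fin d × Bool) :=
  (PMF.uniformOfFintype (Fin d × Bool)).toMeasure

instance (d : ℕ) [NeZero d] : IsProbabilityMeasure (uD d) := by unfold uD; infer_instance

theorem uD_lint [NeZero d] (g : Fin d × Bool → ℝ≥0∞) :
    ∫⁻ e, g e ∂(uD d) = (∑ e, g e) * ENNReal.ofReal (1 / (2 * d)) := by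
  rw [lintegral_fintype, Finset.sum_mul]
  refine Finset.sum_congr rfl fun e _ => ?_
  congr 1
  unfold uD
  rw [PMF.toMeasure_apply_singleton _ _ (MeasurableSet.singleton _),
    PMF.uniformOfFintype_apply]
  simp only [Fintype.card_prod, Fintype.card_fin, Fintype.card_bool]
  rw [one_div, ENNReal.ofReal_inv_of_pos (by
    have : 0 < d := Nat.pos_of_ne_zero (NeZero.ne d)
    positivity)]
  congr 1
  rw [ENNReal.ofReal_mul (by norm_num)]
  push_cast
  rw [ENNReal.ofReal_natCast]
  norm_num
  ring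

theorem siteLaw_pure (d : ℕ) [NeZero d] (m : ℕ) (A : Set (SiteData d)) (hA : MeasurableSet A) :
    siteLaw d (PMF.pure m) A
      = ((Measure.infinitePi fun _ : ℕ × ℕ => uD d).prod
        (Measure.infinitePi fun _ : ℕ × ℕ => (volume : Measure unitInterval)))
          {b | (m, b) ∈ A} := by
  unfold siteLaw
  rw [PMF.toMeasure_pure, Measure.dirac_prod, Measure.map_apply (by fun_prop) hA]
  rfl

instance (d : ℕ) [NeZero d] (ν : PMF ℕ) : IsProbabilityMeasure (siteLaw d ν) := by
  unfold siteLaw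
  infer_instance

instance (d : ℕ) [NeZero d] (ν : PMF ℕ) : IsProbabilityMeasure (frogLaw d ν) := by
  unfold frogLaw
  infer_instance

theorem jump_meas (q : ℝ) (e : Fin d × Bool) : MeasurableSet (JumpSet q e) := by
  have : JumpSet q e = ⋃ i : ℕ, ({a : SiteData d | i < a.1} ∩
      ({a : SiteData d | ((a.2.2 (i, 0) : unitInterval) : ℝ) ≤ q} ∩
        {a : SiteData d | a.2.1 (i, 0) = e})) := by
    ext a
    simp only [JumpSet, Set.mem_ofPred_eq, Set.mem_iUnion, Set.mem_inter_iff]
  rw [this]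
  refine MeasurableSet.iUnion fun i => ?_
  refine MeasurableSet.inter ?_ (MeasurableSet.inter ?_ ?_)
  · exact measurable_fst (measurableSet_Ioi (a := i))
  · have h : Measurable fun a : SiteData d => a.2.2 (i, 0) := by fun_prop
    exact h (coin_meas q)
  · have h : Measurable fun a : SiteData d => a.2.1 (i, 0) := by fun_prop
    exact h (MeasurableSet.singleton e)

/-- probability that no particle jumps directly in direction `e` -/
theorem jump_prob [NeZero d] (m : ℕ) (q : ℝ) (h0 : 0 ≤ q) (h1 : q ≤ 1) (e : Fin d × Bool) :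
    siteLaw d (PMF.pure m) (JumpSet q e)ᶜ = ENNReal.ofReal ((1 - q / (2 * d)) ^ m) := by
  classical
  have hd : 0 < d := Nat.pos_of_ne_zero (NeZero.ne d)
  have hd' : (1 : ℝ) ≤ d := by exact_mod_cast hd
  rw [siteLaw_pure d m _ (jump_meas q e).compl]
  set μ1 := Measure.infinitePi fun _ : ℕ × ℕ => uD d
  set μ2 := Measure.infinitePi fun _ : ℕ × ℕ => (volume : Measure unitInterval)
  set s : Finset (ℕ × ℕ) := (Finset.range m).image fun i => (i, 0) with hs
  have hset : {b : (ℕ × ℕ → Fin d × Bool) × (ℕ × ℕ → unitInterval) | (m, b) ∈ (JumpSet q e)ᶜ}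
      = {b | ∀ k ∈ s, ¬ (((b.2 k : unitInterval) : ℝ) ≤ q ∧ b.1 k = e)} := by
    ext b
    simp only [Set.mem_ofPred_eq, Set.mem_compl_iff, JumpSet, hs, Finset.mem_image,
      Finset.mem_range, not_exists, not_and]
    constructor
    · rintro h k ⟨i, hi, rfl⟩ hq
      exact h i hi hq
    · intro h i hi hq
      exact h (i, 0) ⟨i, hi, rfl⟩ hq
  have hmeas : MeasurableSet {b : (ℕ × ℕ → Fin d × Bool) × (ℕ × ℕ → unitInterval) |
      (m, b) ∈ (JumpSet q e)ᶜ} :=
    (measurable_prodMk_left (jump_meas q e).compl)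
  rw [hset] at hmeas ⊢
  rw [Measure.prod_apply hmeas]
  have hin : ∀ b1 : ℕ × ℕ → Fin d × Bool, μ2 (Prod.mk b1 ⁻¹'
      {b : (ℕ × ℕ → Fin d × Bool) × (ℕ × ℕ → unitInterval) |
        ∀ k ∈ s, ¬ (((b.2 k : unitInterval) : ℝ) ≤ q ∧ b.1 k = e)})
      = ∏ k ∈ s, (if b1 k = e then ENNReal.ofReal (1 - q) else 1) := by
    intro b1
    have h2 : Prod.mk b1 ⁻¹' {b : (ℕ × ℕ → Fin d × Bool) × (ℕ × ℕ → unitInterval) |
        ∀ k ∈ s, ¬ (((b.2 k : unitInterval) : ℝ) ≤ q ∧ b.1 k = e)}
        = (s : Set (ℕ × ℕ)).pi fun k => if b1 k = e then {u : unitInterval | ¬ (u : ℝ) ≤ q}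
          else Set.univ := by
      ext b2
      simp only [Set.mem_preimage, Set.mem_ofPred_eq, Set.mem_pi, Finset.mem_coe]
      refine forall_congr' fun k => imp_congr_right fun _ => ?_
      by_cases hk : b1 k = e
      · simp [hk]
      · simp [hk]
    have h3 : ∀ k : ℕ × ℕ, MeasurableSet
        (if b1 k = e then {u : unitInterval | ¬ (u : ℝ) ≤ q} else Set.univ) := by
      intro k
      split_ifs
      · exact (coin_meas q).compl
      · exact MeasurableSet.univ
    rw [h2, Measure.infinitePi_pi _ (fun k _ => h3 k)]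
    refine Finset.prod_congr rfl fun k _ => ?_
    split_ifs
    · exact coin_prob' q h0 h1
    · simp
  simp_rw [hin]
  rw [lint_prod (uD d) s (fun _ e' => if e' = e then ENNReal.ofReal (1 - q) else 1)
    (fun _ => measurable_of_countable _)]
  have hcard : s.card = m := by
    rw [hs, Finset.card_image_of_injective _ (by intro a b h; simpa using h), Finset.card_range]
  rw [Finset.prod_const, hcard, uD_lint]
  have hsum : (∑ e', (if e' = e then ENNReal.ofReal (1 - q) else (1 : ℝ≥0∞)))
      = ENNReal.ofReal (1 - q + (2 * d - 1)) := by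
    rw [← Finset.add_sum_erase _ _ (Finset.mem_univ e), if_pos rfl]
    rw [Finset.sum_congr rfl (g := fun _ => (1 : ℝ≥0∞)) (fun e' he' => by
      rw [if_neg (Finset.ne_of_mem_erase he')])]
    rw [Finset.sum_const, Finset.card_erase_of_mem (Finset.mem_univ _), nsmul_eq_mul, mul_one]
    simp only [Finset.card_univ, Fintype.card_prod, Fintype.card_fin, Fintype.card_bool]
    rw [← ENNReal.ofReal_natCast, ← ENNReal.ofReal_add (by linarith) (Nat.cast_nonneg _)]
    congr 2
    rw [Nat.cast_sub (by omega)]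
    push_cast
    ring
  rw [hsum, ← ENNReal.ofReal_mul (by linarith), ← ENNReal.ofReal_pow (by
    refine mul_nonneg (by linarith) (by positivity))]
  congr 2
  have : (2 * (d : ℝ)) ≠ 0 := by positivity
  field_simp
  ring

theorem frog_eval [NeZero d] (ν : PMF ℕ) (x : Site d) (A : Set (SiteData d)) (hA : MeasurableSet A) :
    frogLaw d ν {ω | ω x ∈ A} = siteLaw d ν A := by
  have h1 : {ω : Config d | ω x ∈ A} = (fun ω => ω x) ⁻¹' A := rfl
  unfold frogLaw
  rw [h1, ← Measure.map_apply (measurable_pi_apply x) hA, Measure.infinitePi_map_eval]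

/-- independence of blocks -/
theorem finIndep_of_blocks [NeZero d] (ν : PMF ℕ) (ξ : P2 → Config d → Bool)
    (hm : ∀ v, Measurable (ξ v)) (U : P2 → Finset (Site d))
    (hdep : ∀ v (ω ω' : Config d), (∀ x ∈ U v, ω x = ω' x) → ξ v ω = ξ v ω')
    (hU : ∀ v v', v ≠ v' → Disjoint (U v) (U v')) : FinIndep (frogLaw d ν) ξ := by
  classical
  intro S T hST
  have hi : iIndepFun (fun (x : Site d) (ω : Config d) => ω x) (frogLaw d ν) :=
    iIndepFun_infinitePi (P := fun _ : Site d => siteLaw d ν) (X := fun _ a => a)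
      (fun _ => measurable_id)
  have hdis : Disjoint (S.biUnion U) (T.biUnion U) := by
    rw [Finset.disjoint_left]
    intro x h1 h2
    rw [Finset.mem_biUnion] at h1 h2
    obtain ⟨v, hv, hxv⟩ := h1
    obtain ⟨v', hv', hxv'⟩ := h2
    have hne : v ≠ v' := by
      rintro rfl
      exact (Finset.disjoint_left.mp hST) hv hv'
    exact (Finset.disjoint_left.mp (hU v v' hne)) hxv hxv'
  have h1 := hi.indepFun_finset (S.biUnion U) (T.biUnion U) hdis (fun x => measurable_pi_apply x)
  have ext : ∀ R : Finset P2, ∃ F : ({y // y ∈ R.biUnion U} → SiteData d) → (R → Bool),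
      Measurable F ∧ (fun (ω : Config d) (x : R) => ξ x ω)
        = F ∘ (fun (ω : Config d) (y : {y // y ∈ R.biUnion U}) => ω y) := by
    intro R
    set E : ({y // y ∈ R.biUnion U} → SiteData d) → Config d := fun f x =>
      if h : x ∈ R.biUnion U then f ⟨x, h⟩ else (0, (fun _ => default, fun _ => 0)) with hE
    refine ⟨fun f x => ξ x (E f), ?_, ?_⟩
    · refine measurable_pi_iff.mpr fun x => (hm x).comp ?_
      refine measurable_pi_iff.mpr fun y => ?_
      by_cases hy : y ∈ R.biUnion U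
      · have : (fun f : {y // y ∈ R.biUnion U} → SiteData d => E f y)
            = fun f => f ⟨y, hy⟩ := by
          funext f; rw [hE]; simp only [dif_pos hy]
        rw [this]
        exact measurable_pi_apply _
      · have : (fun f : {y // y ∈ R.biUnion U} → SiteData d => E f y)
            = fun _ => (0, (fun _ => default, fun _ => 0)) := by
          funext f; rw [hE]; simp only [dif_neg hy]
        rw [this]
        exact measurable_const
    · funext ω x
      simp only [Function.comp_apply]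
      refine hdep x _ _ fun y hy => ?_
      have hy' : y ∈ R.biUnion U := Finset.mem_biUnion.mpr ⟨x, x.2, hy⟩
      rw [hE]
      simp only [dif_pos hy']
  obtain ⟨F, hF, hFe⟩ := ext S
  obtain ⟨G, hG, hGe⟩ := ext T
  rw [hFe, hGe]
  exact h1.comp hF hG

theorem xi_meas (i0 i1 : Fin d) (q : ℝ) (K : ℕ) (x0 : Site d) (σ : Bool) (v : P2) :
    Measurable (xi i0 i1 q K x0 σ v) := by
  refine measurable_to_bool ?_
  have : xi i0 i1 q K x0 σ v ⁻¹' {true} = {ω | MG i0 i1 q K x0 σ ω v}ᶜ := by
    ext ω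
    simp [xi]
  rw [this]
  refine MeasurableSet.compl ?_
  have h2 : {ω : Config d | MG i0 i1 q K x0 σ ω v}
      = (⋂ l ∈ Finset.range (K + 1), {ω | ω (pt i0 i1 x0 σ (mx K v + l) v.2) ∈ JumpSet q (i0, σ)}) ∩
        {ω | ω (pt i0 i1 x0 σ (mx K v + K) v.2) ∈ JumpSet q (i1, σ)} := by
    ext ω
    simp [MG]
  rw [h2]
  refine MeasurableSet.inter ?_ ?_
  · exact Finset.measurableSet_biInter _ fun l _ => (measurable_pi_apply _) (jump_meas _ _)
  · exact (measurable_pi_apply _) (jump_meas _ _)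

theorem xi_prob [NeZero d] (i0 i1 : Fin d) (m : ℕ) (q : ℝ) (h0 : 0 ≤ q) (h1 : q ≤ 1) (K : ℕ)
    (x0 : Site d) (σ : Bool) (v : P2) :
    frogLaw d (PMF.pure m) {ω | xi i0 i1 q K x0 σ v ω = true}
      ≤ ENNReal.ofReal ((K + 2) * (1 - q / (2 * d)) ^ m) := by
  have hd : 0 < d := Nat.pos_of_ne_zero (NeZero.ne d)
  have hd' : (1 : ℝ) ≤ d := by exact_mod_cast hd
  have hsub : {ω : Config d | xi i0 i1 q K x0 σ v ω = true} ⊆
      (⋃ l ∈ Finset.range (K + 1),
        {ω | ω (pt i0 i1 x0 σ (mx K v + l) v.2) ∈ (JumpSet q (i0, σ))ᶜ}) ∪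
      {ω | ω (pt i0 i1 x0 σ (mx K v + K) v.2) ∈ (JumpSet q (i1, σ))ᶜ} := by
    intro ω hω
    simp only [xi, Set.mem_ofPred_eq, decide_eq_true_eq] at hω
    unfold MG at hω
    rw [not_and_or] at hω
    rcases hω with h | h
    · left
      push Not at h
      obtain ⟨l, hl, hn⟩ := h
      rw [Set.mem_iUnion₂]
      exact ⟨l, hl, hn⟩
    · right
      exact h
  refine (measure_mono hsub).trans ((measure_union_le _ _).trans ?_)
  have hq : 0 ≤ (1 - q / (2 * (d : ℝ))) := by
    have : q / (2 * (d : ℝ)) ≤ 1 := by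
      rw [div_le_one (by positivity)]
      linarith
    linarith
  have h2 : ∀ (x : Site d) (e : Fin d × Bool),
      frogLaw d (PMF.pure m) {ω | ω x ∈ (JumpSet q e)ᶜ} = ENNReal.ofReal ((1 - q / (2 * d)) ^ m) :=
    fun x e => by rw [frog_eval _ _ _ (jump_meas q e).compl, jump_prob m q h0 h1 e]
  calc _ ≤ (∑ l ∈ Finset.range (K + 1), ENNReal.ofReal ((1 - q / (2 * d)) ^ m))
        + ENNReal.ofReal ((1 - q / (2 * d)) ^ m) := by
        gcongr
        · refine (measure_biUnion_finset_le _ _).trans (Finset.sum_le_sum fun l _ => ?_)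
          rw [h2]
        · rw [h2]
    _ = _ := by
        rw [Finset.sum_const, Finset.card_range, nsmul_eq_mul, ← ENNReal.ofReal_natCast,
          ← ENNReal.ofReal_mul (Nat.cast_nonneg _), ← ENNReal.ofReal_add (by positivity) (by positivity)]
        congr 1
        push_cast
        ring

end

end Pool.Agent.H592F
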