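import Mathlib
import Pool.Agent.H592F.Prob

set_option autoImplicit false
open MeasureTheory ProbabilityTheory Filter
open scoped ENNReal

namespace Pool.Agent.H592F

noncomputable section

variable {d : ℕ}

/-- the exceptional set of the embedded percolation -/
def Exc (i0 i1 : Fin d) (q : ℝ) (K : ℕ) (x0 : Site d) (σ : Bool) : Set (Config d) :=
  {ω | ∃ k, ¬ safe (bad (Bof (xi i0 i1 q K x0 σ) ω) k) (0, 0)}

theorem exc_prob [NeZero d] {i0 i1 : Fin d} (h : i0 ≠ i1) (m : ℕ) (q : ℝ) (h0 : 0 ≤ q) (h1 : q ≤ 1)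
    (K : ℕ) (x0 : Site d) (σ : Bool)
    (hε : ((K : ℝ) + 2) * (1 - q / (2 * d)) ^ m ≤ 1 / 884101250) :
    frogLaw d (PMF.pure m) (Exc i0 i1 q K x0 σ) ≤ ENNReal.ofReal (1 / 4) := by
  refine fail_prob (frogLaw d (PMF.pure m)) (xi i0 i1 q K x0 σ) ?_ ?_
  · exact finIndep_of_blocks _ _ (xi_meas i0 i1 q K x0 σ) (blk i0 i1 K x0 σ)
      (xi_dep i0 i1 q K x0 σ) (fun v v' hv => blk_disjoint h K x0 σ hv)
  · intro v
    exact (xi_prob i0 i1 m q h0 h1 K x0 σ v).trans (ENNReal.ofReal_le_ofReal hε)

theorem exc_wet {i0 i1 : Fin d} {q : ℝ} {K : ℕ} {x0 : Site d} {σ : Bool} {ω : Config d}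
    (h : ω ∉ Exc i0 i1 q K x0 σ) (N : ℕ) :
    ∃ x, Wet (Bof (xi i0 i1 q K x0 σ) ω) x ∧ (N : ℤ) ≤ x.1 + x.2 := by
  refine perc_det _ ?_ N
  intro k
  by_contra hcon
  exact h ⟨k, hcon⟩

theorem dist1_two {i0 i1 : Fin d} (h : i0 ≠ i1) (x y : Site d) :
    |x i0 - y i0| + |x i1 - y i1| ≤ dist1 x y := by
  classical
  have h1 := Finset.sum_pair (f := fun j => |x j - y j|) h
  unfold dist1
  refine le_trans (le_of_eq h1.symm) ?_
  exact Finset.sum_le_sum_of_subset_of_nonneg (Finset.subset_univ _) fun j _ _ => abs_nonneg _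

theorem particles_ae (d : ℕ) [NeZero d] (m : ℕ) :
    ∀ᵐ ω ∂(frogLaw d (PMF.pure m)), ∀ x, (ω x).1 = m := by
  rw [ae_all_iff]
  intro x
  rw [ae_iff]
  have hA : MeasurableSet {a : SiteData d | ¬ a.1 = m} :=
    measurable_fst (MeasurableSet.compl (MeasurableSet.singleton m))
  have := frog_eval (PMF.pure m) x {a : SiteData d | ¬ a.1 = m} hA
  rw [siteLaw_pure d m _ hA] at this
  simpa using this

theorem twoStart_true {z x : Site d} (h : twoStart z x = some true) : x = 0 := by
  unfold twoStart at h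
  split_ifs at h with h1 h2
  · exact h1
  · simp at h

theorem twoStart_false {z x : Site d} (h : twoStart z x = some false) : x = z := by
  unfold twoStart at h
  split_ifs at h with h1 h2
  · simp at h
  · exact h2

/-- coexistence from two supercritical full-speed clusters -/
theorem coexist (d : ℕ) [NeZero d] (hd : 2 ≤ d) (m : ℕ) (hm : 0 < m) (p : Bool → ℝ)
    (h0 : ∀ j, 0 ≤ p j) (h1 : ∀ j, p j ≤ 1)
    (hε : ∀ j, 2 * (1 - p j / (2 * d)) ^ m ≤ 1 / 884101250)
    (tie : Config d → ℕ → Site d → Bool) : CanCoexist d (PMF.pure m) p tie := by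
  classical
  set i0 : Fin d := ⟨0, by omega⟩ with hi0
  set i1 : Fin d := ⟨1, by omega⟩ with hi1
  have hne : i0 ≠ i1 := by
    intro h
    rw [hi0, hi1, Fin.mk.injEq] at h
    omega
  set z : Site d := pt i0 i1 0 false 1 1 with hz
  have hz0 : z i0 = -1 := by rw [hz, pt_i0 hne]; simp [sg]
  have hz1 : z i1 = -1 := by rw [hz, pt_i1 hne]; simp [sg]
  have hzne : z ≠ 0 := by
    intro h
    rw [h] at hz0
    simp at hz0
  refine ⟨z, hzne, ?_⟩
  have hAt : ∀ a b : ℕ, Ahead (twoStart z) true (a + b) (pt i0 i1 0 true a b) := by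
    intro a b
    have e0 : pt i0 i1 (0 : Site d) true a b i0 = a := by rw [pt_i0 hne]; simp [sg]
    have e1 : pt i0 i1 (0 : Site d) true a b i1 = b := by rw [pt_i1 hne]; simp [sg]
    constructor
    · intro x1 hx1
      rw [twoStart_true hx1]
      have h2 := dist1_two hne (pt i0 i1 (0 : Site d) true a b) 0
      rw [e0, e1] at h2
      simp only [Pi.zero_apply, sub_zero, Nat.abs_cast] at h2
      push_cast
      exact h2
    · intro x1 hx1
      rw [Bool.not_true] at hx1
      rw [twoStart_false hx1]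
      have h2 := dist1_two hne (pt i0 i1 (0 : Site d) true a b) z
      rw [e0, e1, hz0, hz1] at h2
      have h3 : |(a : ℤ) - -1| = a + 1 := by rw [sub_neg_eq_add]; exact abs_of_nonneg (by positivity)
      have h4 : |(b : ℤ) - -1| = b + 1 := by rw [sub_neg_eq_add]; exact abs_of_nonneg (by positivity)
      rw [h3, h4] at h2
      push_cast
      linarith
  have hAf : ∀ a b : ℕ, Ahead (twoStart z) false (a + b) (pt i0 i1 z false a b) := by
    intro a b
    have e0 : pt i0 i1 z false a b i0 = -1 - a := by rw [pt_i0 hne, hz0]; simp [sg]; ring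
    have e1 : pt i0 i1 z false a b i1 = -1 - b := by rw [pt_i1 hne, hz1]; simp [sg]; ring
    constructor
    · intro x1 hx1
      rw [twoStart_false hx1]
      have h2 := dist1_two hne (pt i0 i1 z false a b) z
      rw [e0, e1, hz0, hz1] at h2
      have h3 : |(-1 : ℤ) - a - -1| = a := by
        rw [show (-1 : ℤ) - a - -1 = -a by ring, abs_neg, Nat.abs_cast]
      have h4 : |(-1 : ℤ) - b - -1| = b := by
        rw [show (-1 : ℤ) - b - -1 = -b by ring, abs_neg, Nat.abs_cast]
      rw [h3, h4] at h2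
      push_cast
      exact h2
    · intro x1 hx1
      rw [Bool.not_false] at hx1
      rw [twoStart_true hx1]
      have h2 := dist1_two hne (pt i0 i1 z false a b) 0
      rw [e0, e1] at h2
      simp only [Pi.zero_apply, sub_zero] at h2
      have h3 : |(-1 : ℤ) - a| = a + 1 := by
        rw [show (-1 : ℤ) - a = -(a + 1) by ring, abs_neg]; exact abs_of_nonneg (by positivity)
      have h4 : |(-1 : ℤ) - b| = b + 1 := by
        rw [show (-1 : ℤ) - b = -(b + 1) by ring, abs_neg]; exact abs_of_nonneg (by positivity)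
      rw [h3, h4] at h2
      push_cast
      linarith
  have hinf : ∀ (ω : Config d) (j σ : Bool) (x0 : Site d), (∀ x, (ω x).1 = m) →
      ω ∉ Exc i0 i1 (p j) 0 x0 σ → twoStart z x0 = some j →
      (∀ a b : ℕ, Ahead (twoStart z) j (a + b) (pt i0 i1 x0 σ a b)) →
      ActivatesInfinitely ω p (tie ω) (twoStart z) j := by
    intro ω j σ x0 hω hexc hinit hA
    unfold ActivatesInfinitely
    set Q : Set (Site d × ℕ) := {q | q.2 < (ω q.1).1 ∧
      ∃ t s, state ω p (tie ω) (twoStart z) t q.1 = some (j, s)} with hQ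
    refine Set.Infinite.of_image (fun q : Site d × ℕ => |q.1 i0 - x0 i0| + |q.1 i1 - x0 i1|) ?_
    refine Set.infinite_of_not_bddAbove ?_
    rintro ⟨M, hM⟩
    obtain ⟨v, hv, hN⟩ := exc_wet hexc (M.toNat + 1)
    obtain ⟨a, b, rfl, hst⟩ := wet_state (tie := tie ω) hA hinit hv
    simp only [zero_add, one_mul, zero_mul, add_zero] at hst
    have hmem : (pt i0 i1 x0 σ a b, 0) ∈ Q := by
      rw [hQ]
      refine ⟨?_, _, _, hst⟩
      rw [hω]
      exact hm
    have h2 := hM (Set.mem_image_of_mem _ hmem)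
    simp only at h2
    rw [pt_i0 hne, pt_i1 hne] at h2
    have h3 : |x0 i0 + (a : ℤ) * sg σ - x0 i0| = a := by
      rw [add_sub_cancel_left, abs_mul, Nat.abs_cast]
      cases σ <;> simp [sg]
    have h4 : |x0 i1 + (b : ℤ) * sg σ - x0 i1| = b := by
      rw [add_sub_cancel_left, abs_mul, Nat.abs_cast]
      cases σ <;> simp [sg]
    rw [h3, h4] at h2
    simp only at hN
    push_cast at hN
    have h5 := Int.self_le_toNat M
    linarith
  by_contra hcon
  rw [not_lt, nonpos_iff_eq_zero] at hcon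
  have hcover : (Set.univ : Set (Config d)) ⊆
      (({ω | ActivatesInfinitely ω p (tie ω) (twoStart z) true ∧
        ActivatesInfinitely ω p (tie ω) (twoStart z) false} ∪ {ω | ¬ ∀ x, (ω x).1 = m}) ∪
      Exc i0 i1 (p true) 0 0 true) ∪ Exc i0 i1 (p false) 0 z false := by
    intro ω _
    by_cases hE1 : ω ∈ Exc i0 i1 (p true) 0 0 true
    · exact Or.inl (Or.inr hE1)
    by_cases hE2 : ω ∈ Exc i0 i1 (p false) 0 z false
    · exact Or.inr hE2
    by_cases hω : ∀ x, (ω x).1 = m
    · refine Or.inl (Or.inl (Or.inl ⟨?_, ?_⟩))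
      · exact hinf ω true true 0 hω hE1 (by simp [twoStart]) hAt
      · exact hinf ω false false z hω hE2 (by simp [twoStart, hzne]) hAf
    · exact Or.inl (Or.inl (Or.inr hω))
  have h5 := measure_mono (μ := frogLaw d (PMF.pure m)) hcover
  rw [measure_univ] at h5
  have hE1 := exc_prob hne m (p true) (h0 true) (h1 true) 0 0 true (by simpa using hε true)
  have hE2 := exc_prob hne m (p false) (h0 false) (h1 false) 0 z false (by simpa using hε false)
  have hae := particles_ae d m
  rw [ae_iff] at hae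
  have h6 : frogLaw d (PMF.pure m) ((({ω | ActivatesInfinitely ω p (tie ω) (twoStart z) true ∧
        ActivatesInfinitely ω p (tie ω) (twoStart z) false} ∪ {ω | ¬ ∀ x, (ω x).1 = m}) ∪
      Exc i0 i1 (p true) 0 0 true) ∪ Exc i0 i1 (p false) 0 z false)
      ≤ ((0 + 0) + ENNReal.ofReal (1 / 4)) + ENNReal.ofReal (1 / 4) := by
    refine (measure_union_le _ _).trans (add_le_add ?_ hE2)
    refine (measure_union_le _ _).trans (add_le_add ?_ hE1)
    refine (measure_union_le _ _).trans (add_le_add hcon.le hae.le)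
  have h7 := h5.trans h6
  rw [add_zero, zero_add, ← ENNReal.ofReal_add (by norm_num) (by norm_num)] at h7
  rw [← ENNReal.ofReal_one, ENNReal.ofReal_le_ofReal_iff (by norm_num)] at h7
  norm_num at h7

/-- one-type start -/
def oneStart (x : Site d) : Option Bool := if x = 0 then some true else none

theorem oneStart_ahead {i0 i1 : Fin d} (hne : i0 ≠ i1) (a b : ℕ) :
    Ahead (oneStart (d := d)) true (a + b) (pt i0 i1 0 true a b) := by
  have e0 : pt i0 i1 (0 : Site d) true a b i0 = a := by rw [pt_i0 hne]; simp [sg]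
  have e1 : pt i0 i1 (0 : Site d) true a b i1 = b := by rw [pt_i1 hne]; simp [sg]
  constructor
  · intro x1 hx1
    unfold oneStart at hx1
    split_ifs at hx1 with h
    · rw [h]
      have h2 := dist1_two hne (pt i0 i1 (0 : Site d) true a b) 0
      rw [e0, e1] at h2
      simp only [Pi.zero_apply, sub_zero, Nat.abs_cast] at h2
      push_cast
      exact h2
  · intro x1 hx1
    unfold oneStart at hx1
    split_ifs at hx1 with h
    · simp at hx1

end

end Pool.Agent.H592F
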