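import Mathlib
import Pool.Agent.H592F.Perc

set_option autoImplicit false
open MeasureTheory ProbabilityTheory Filter
open scoped ENNReal

namespace Pool.Agent.H592F

noncomputable section

variable {d : ℕ}

/-- some particle of the site has displacement `v` after `τ` units of active time -/
def LegSet (p : ℝ) (v : Site d) (τ : ℕ) : Set (SiteData d) := {a | ∃ i < a.1, disp a p i τ = v}

/-- end point of a chain of legs, the last leg first -/
def endpt : List (Site d × ℕ) → Site d
  | [] => 0
  | c :: L => endpt L + c.1

/-- total time -/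
def total : List (Site d × ℕ) → ℕ
  | [] => 0
  | c :: L => total L + c.2

/-- starting points of the legs -/
def srcs : List (Site d × ℕ) → List (Site d)
  | [] => []
  | _ :: L => endpt L :: srcs L

/-- all legs are realised -/
def Valid (ω : Config d) (p : ℝ) : List (Site d × ℕ) → Prop
  | [] => True
  | c :: L => ω (endpt L) ∈ LegSet p c.1 c.2 ∧ Valid ω p L

/-- deficit -/
def defi (i0 : Fin d) : List (Site d × ℕ) → ℕ
  | [] => 0
  | c :: L => defi i0 L + ((c.2 : ℤ) - c.1 i0).toNat

theorem chain {ω : Config d} {p : ℝ} {tie : ℕ → Site d → Bool} (t : ℕ) :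
    ∀ (y : Site d) (j : Bool) (s : ℕ), state ω (fun _ => p) tie oneStart t y = some (j, s) →
      ∃ L : List (Site d × ℕ), endpt L = y ∧ total L = s ∧ Valid ω p L ∧ (srcs L).Nodup ∧
        (∀ x ∈ srcs L, ∃ j' s', state ω (fun _ => p) tie oneStart t x = some (j', s') ∧ s' < s) ∧
        (∀ c ∈ L, c.1 ≠ 0 ∧ 1 ≤ c.2) := by
  induction t with
  | zero =>
    intro y j s h
    obtain ⟨h1, rfl⟩ := state_zero h
    have hy : y = 0 := by
      unfold oneStart at h1
      split_ifs at h1 with h2
      exact h2
    exact ⟨[], hy.symm, rfl, trivial, List.nodup_nil, by simp [srcs], by simp⟩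
  | succ t ih =>
    intro y j s h
    cases h0 : state ω (fun _ => p) tie oneStart t y with
    | some a =>
      have h1 := state_keep h0
      rw [h1] at h
      have h2 := Option.some.inj h
      subst h2
      obtain ⟨L, hL1, hL2, hL3, hL4, hL5, hL6⟩ := ih y j s h0
      refine ⟨L, hL1, hL2, hL3, hL4, fun x hx => ?_, hL6⟩
      obtain ⟨j', s', h3, h4⟩ := hL5 x hx
      exact ⟨j', s', state_keep h3, h4⟩
    | none =>
      obtain ⟨h1, x, s', hx, i, hi, hd⟩ := state_new h0 h
      simp only at h1 hx hd
      subst h1
      obtain ⟨L, hL1, hL2, hL3, hL4, hL5, hL6⟩ := ih x j s' hx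
      obtain ⟨hs', -⟩ := state_dist t x j s' hx
      refine ⟨(y - x, t + 1 - s') :: L, ?_, ?_, ?_, ?_, ?_, ?_⟩
      · show endpt L + (y - x) = y
        rw [hL1]; abel
      · show total L + (t + 1 - s') = t + 1
        rw [hL2]; omega
      · refine ⟨?_, hL3⟩
        rw [hL1]
        refine ⟨i, hi, ?_⟩
        simp only
        rw [← hd]; abel
      · show (endpt L :: srcs L).Nodup
        rw [List.nodup_cons]
        refine ⟨?_, hL4⟩
        intro hmem
        obtain ⟨j'', s'', h3, h4⟩ := hL5 _ hmem
        rw [hL1, hx] at h3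
        have h5 := Option.some.inj h3
        simp only [Prod.mk.injEq] at h5
        omega
      · intro x' hx'
        rcases List.mem_cons.mp (show x' ∈ endpt L :: srcs L from hx') with h3 | h3
        · rw [h3, hL1]
          exact ⟨j, s', state_keep hx, by omega⟩
        · obtain ⟨j'', s'', h4, h5⟩ := hL5 _ h3
          exact ⟨j'', s'', state_keep h4, by omega⟩
      · intro c hc
        rcases List.mem_cons.mp hc with h3 | h3
        · rw [h3]
          refine ⟨?_, by simp only; omega⟩
          simp only
          intro h4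
          have h5 : y = x := sub_eq_zero.mp h4
          rw [h5, hx] at h0
          exact absurd h0 (by simp)
        · exact hL6 c h3

theorem legset_le {p : ℝ} {v : Site d} {τ : ℕ} {a : SiteData d} (h : a ∈ LegSet p v τ)
    (i0 : Fin d) : v i0 ≤ τ := by
  obtain ⟨i, hi, rfl⟩ := h
  have h1 := dist1_disp a p i τ 0 0
  rw [dist1_self, zero_add, zero_add] at h1
  refine le_trans ?_ h1
  unfold dist1
  simp only [Pi.zero_apply, sub_zero]
  exact (le_abs_self _).trans (Finset.single_le_sum (f := fun j => |disp a p i τ j|)
    (fun j _ => abs_nonneg _) (Finset.mem_univ i0))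

theorem valid_defi {ω : Config d} {p : ℝ} (i0 : Fin d) (L : List (Site d × ℕ)) (h : Valid ω p L) :
    (defi i0 L : ℤ) = total L - endpt L i0 := by
  induction L with
  | nil => simp [defi, total, endpt]
  | cons c L ih =>
    have h1 := ih h.2
    have h2 := legset_le h.1 i0
    simp only [defi, total, endpt, Pi.add_apply]
    push_cast
    rw [h1, Int.toNat_of_nonneg (by linarith)]
    ring

theorem total_length (L : List (Site d × ℕ)) (h : ∀ c ∈ L, 1 ≤ c.2) : L.length ≤ total L := by
  induction L with
  | nil => simp [total]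
  | cons c L ih =>
    have h1 := ih fun c' hc' => h c' (List.mem_cons_of_mem _ hc')
    have h2 := h c List.mem_cons_self
    simp only [List.length_cons, total]
    omega

/-- sums over lists -/
theorem list_sum {α : Type} (W : α → ℝ≥0∞) (C : ℝ≥0∞) (hC : 1 + (∑' c, W c) * C ≤ C) (n : ℕ) :
    ∑' L : List α, (if L.length < n then (L.map W).prod else 0) ≤ C := by
  classical
  induction n with
  | zero => simp
  | succ n ih =>
    refine le_trans ?_ hC
    rw [ENNReal.tsum_eq_add_tsum_ite ([] : List α)]
    refine add_le_add (by simp) ?_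
    have hinj : Function.Injective fun x : α × List α => x.1 :: x.2 := by
      rintro ⟨a, l⟩ ⟨a', l'⟩ h
      simp only [List.cons.injEq] at h
      exact Prod.ext h.1 h.2
    have h1 := hinj.tsum_eq (f := fun L : List α => if L = [] then (0 : ℝ≥0∞) else
      (if L.length < n + 1 then (L.map W).prod else 0)) (by
        intro L hL
        cases L with
        | nil => simp at hL
        | cons a l => exact ⟨(a, l), rfl⟩)
    refine (le_of_eq (Eq.trans (tsum_congr fun L => ?_) h1.symm)).trans ?_
    · cases L <;> simp
    calc ∑' c : α × List α, (if c.1 :: c.2 = [] then (0 : ℝ≥0∞) else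
          (if (c.1 :: c.2).length < n + 1 then ((c.1 :: c.2).map W).prod else 0))
        = ∑' c : α × List α, W c.1 * (if c.2.length < n then (c.2.map W).prod else 0) := by
          refine tsum_congr fun c => ?_
          rw [if_neg (by simp)]
          simp only [List.length_cons, Nat.add_lt_add_iff_right, List.map_cons, List.prod_cons,
            mul_ite, mul_zero]
      _ = ∑' (a : α), ∑' (l : List α), W a * (if l.length < n then (l.map W).prod else 0) :=
          ENNReal.tsum_prod (f := fun a l => W a * (if List.length l < n then (List.map W l).prod else 0))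
      _ = (∑' a, W a) * ∑' (l : List α), (if l.length < n then (l.map W).prod else 0) := by
          rw [← ENNReal.tsum_mul_right]
          refine tsum_congr fun a => ?_
          rw [ENNReal.tsum_mul_left]
      _ ≤ (∑' a, W a) * C := by gcongr

theorem steps_meas (p : ℝ) (i u : ℕ) : Measurable fun a : SiteData d => stepsMade a p i u := by
  classical
  unfold stepsMade
  simp_rw [Finset.card_filter]
  refine Finset.measurable_sum _ fun s _ => ?_
  refine Measurable.ite ?_ measurable_const measurable_const
  have h : Measurable fun a : SiteData d => a.2.2 (i, s) := by fun_prop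
  exact h (coin_meas p)

theorem disp_meas (p : ℝ) (i u : ℕ) : Measurable fun a : SiteData d => disp a p i u := by
  classical
  have h1 : (fun a : SiteData d => disp a p i u) = fun a => ∑ k ∈ Finset.range u,
      (if k < stepsMade a p i u then unitVec (a.2.1 (i, k)) else 0) := by
    funext a
    unfold disp
    rw [← Finset.sum_filter]
    refine Finset.sum_congr ?_ fun _ _ => rfl
    ext k
    simp only [Finset.mem_range, Finset.mem_filter]
    have := stepsMade_le a p i u
    omega
  rw [h1]
  refine Finset.measurable_sum _ fun k _ => ?_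
  refine Measurable.ite ?_ ?_ measurable_const
  · exact (steps_meas p i u) (measurableSet_Ioi (a := k))
  · have h : Measurable fun a : SiteData d => a.2.1 (i, k) := by fun_prop
    have h2 : Measurable (unitVec : Fin d × Bool → Site d) := measurable_of_countable _
    exact h2.comp h

theorem leg_meas (p : ℝ) (v : Site d) (τ : ℕ) : MeasurableSet (LegSet p v τ) := by
  have : LegSet p v τ = ⋃ i : ℕ, ({a : SiteData d | i < a.1} ∩
      {a : SiteData d | disp a p i τ = v}) := by
    ext a
    simp only [LegSet, Set.mem_ofPred_eq, Set.mem_iUnion, Set.mem_inter_iff]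
  rw [this]
  refine MeasurableSet.iUnion fun i => MeasurableSet.inter ?_ ?_
  · exact measurable_fst (measurableSet_Ioi (a := i))
  · exact (disp_meas p i τ) (MeasurableSet.singleton v)

/-- the box of a chain -/
def box (p : ℝ) : List (Site d × ℕ) → Site d → Set (SiteData d)
  | [] => fun _ => Set.univ
  | c :: L => fun x => if x = endpt L then LegSet p c.1 c.2 else box p L x

theorem box_meas (p : ℝ) (L : List (Site d × ℕ)) (x : Site d) : MeasurableSet (box p L x) := by
  induction L with
  | nil => exact MeasurableSet.univ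
  | cons c L ih =>
    simp only [box]
    split_ifs
    · exact leg_meas _ _ _
    · exact ih

theorem valid_box (p : ℝ) (L : List (Site d × ℕ)) (h : (srcs L).Nodup) (ω : Config d)
    (hv : Valid ω p L) : ∀ x ∈ (srcs L).toFinset, ω x ∈ box p L x := by
  induction L with
  | nil => simp [srcs]
  | cons c L ih =>
    have h' : (endpt L :: srcs L).Nodup := h
    rw [List.nodup_cons] at h'
    intro x hx
    rw [List.mem_toFinset] at hx
    simp only [box]
    split_ifs with he
    · rw [he]; exact hv.1
    · rcases List.mem_cons.mp (show x ∈ endpt L :: srcs L from hx) with h3 | h3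
      · exact absurd h3 he
      · exact ih h'.2 hv.2 x (List.mem_toFinset.mpr h3)

theorem valid_prob [NeZero d] (ν : PMF ℕ) (p : ℝ) (L : List (Site d × ℕ)) (h : (srcs L).Nodup) :
    frogLaw d ν {ω | Valid ω p L} ≤ (L.map fun c => siteLaw d ν (LegSet p c.1 c.2)).prod := by
  have h1 : {ω : Config d | Valid ω p L} ⊆ Set.pi ((srcs L).toFinset : Set (Site d)) (box p L) :=
    fun ω hω => valid_box p L h ω hω
  refine (measure_mono h1).trans ?_
  unfold frogLaw
  rw [Measure.infinitePi_pi _ (fun x _ => box_meas p L x)]
  clear h1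
  refine le_of_eq ?_
  induction L with
  | nil => simp [srcs]
  | cons c L ih =>
    have h' : (endpt L :: srcs L).Nodup := h
    rw [List.nodup_cons] at h'
    have h2 : (srcs (c :: L)).toFinset = insert (endpt L) (srcs L).toFinset := by
      show (endpt L :: srcs L).toFinset = _
      rw [List.toFinset_cons]
    rw [h2, Finset.prod_insert (by rw [List.mem_toFinset]; exact h'.1), List.map_cons,
      List.prod_cons, ← ih h'.2]
    congr 1
    · simp only [box, if_true]
    · refine Finset.prod_congr rfl fun x hx => ?_
      have hne : x ≠ endpt L := by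
        rintro rfl
        exact h'.1 (List.mem_toFinset.mp hx)
      simp only [box, if_neg hne]

/-- the weights -/
def Wt [NeZero d] (ν : PMF ℕ) (i0 : Fin d) (p : ℝ) (b g : ℝ≥0∞) (c : Site d × ℕ) : ℝ≥0∞ :=
  if c.1 = 0 ∨ c.2 = 0 then 0 else
    b ^ ((c.2 : ℤ) - c.1 i0).toNat * g ^ c.2 * siteLaw d ν (LegSet p c.1 c.2)

theorem wt_prod [NeZero d] (ν : PMF ℕ) (i0 : Fin d) (p : ℝ) (b g : ℝ≥0∞) (L : List (Site d × ℕ))
    (h : ∀ c ∈ L, c.1 ≠ 0 ∧ 1 ≤ c.2) :
    (L.map (Wt ν i0 p b g)).prod = b ^ defi i0 L * g ^ total L *
      (L.map fun c => siteLaw d ν (LegSet p c.1 c.2)).prod := by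
  induction L with
  | nil => simp [defi, total]
  | cons c L ih =>
    have h1 := ih fun c' hc' => h c' (List.mem_cons_of_mem _ hc')
    have h2 := h c List.mem_cons_self
    rw [List.map_cons, List.prod_cons, h1, List.map_cons, List.prod_cons]
    unfold Wt
    rw [if_neg (by push Not; exact ⟨h2.1, by omega⟩)]
    simp only [defi, total]
    rw [pow_add, pow_add]
    ring

/-- first moment bound -/
theorem first_moment [NeZero d] (ν : PMF ℕ) (i0 : Fin d) (p : ℝ) (b g C : ℝ≥0∞) (hb : b ≤ 1)
    (hg : 1 ≤ g) (hC : 1 + (∑' c, Wt ν i0 p b g c) * C ≤ C) (n D : ℕ) :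
    b ^ D * g ^ (n - D) * frogLaw d ν
      {ω | ∃ y ∈ discovered ω p n, (n : ℤ) - D ≤ y i0} ≤ C := by
  classical
  set E := {ω : Config d | ∃ y ∈ discovered ω p n, (n : ℤ) - D ≤ y i0} with hE
  set A : List (Site d × ℕ) → Set (Config d) := fun L => {ω | Valid ω p L ∧ ((srcs L).Nodup ∧
    (∀ c ∈ L, c.1 ≠ 0 ∧ 1 ≤ c.2) ∧ defi i0 L ≤ D ∧ n ≤ total L + D ∧ L.length < n + 1)} with hA
  have hcover : E ⊆ ⋃ L, A L := by
    rintro ω ⟨y, hy, hyn⟩
    unfold discovered at hy
    rw [Set.mem_ofPred_eq, Option.ne_none_iff_exists'] at hy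
    obtain ⟨⟨j, s⟩, hs⟩ := hy
    obtain ⟨L, h1, h2, h3, h4, -, h6⟩ := chain (p := p) n y j s hs
    obtain ⟨hsn, -⟩ := state_dist (init := oneStart) n y j s hs
    have h7 := valid_defi i0 L h3
    rw [h1, h2] at h7
    have h8 := total_length L fun c hc => (h6 c hc).2
    have h9 : y i0 ≤ s := by
      have : (0 : ℤ) ≤ defi i0 L := Int.natCast_nonneg _
      linarith
    have h10 : (s : ℤ) ≤ n := by exact_mod_cast hsn
    refine Set.mem_iUnion.mpr ⟨L, h3, h4, h6, ?_, ?_, ?_⟩
    · have : (defi i0 L : ℤ) ≤ D := by rw [h7]; linarith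
      exact_mod_cast this
    · have : (n : ℤ) ≤ total L + D := by rw [h2]; linarith
      exact_mod_cast this
    · omega
  calc b ^ D * g ^ (n - D) * frogLaw d ν E
      ≤ b ^ D * g ^ (n - D) * ∑' L, frogLaw d ν (A L) := by
        gcongr
        exact (measure_mono hcover).trans (measure_iUnion_le _)
    _ = ∑' L, b ^ D * g ^ (n - D) * frogLaw d ν (A L) := ENNReal.tsum_mul_left.symm
    _ ≤ ∑' L : List (Site d × ℕ), (if L.length < n + 1 then (L.map (Wt ν i0 p b g)).prod else 0) := by
        refine ENNReal.tsum_le_tsum fun L => ?_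
        by_cases hcond : ((srcs L).Nodup ∧
          (∀ c ∈ L, c.1 ≠ 0 ∧ 1 ≤ c.2) ∧ defi i0 L ≤ D ∧ n ≤ total L + D ∧ L.length < n + 1)
        · have hle : frogLaw d ν (A L) ≤ (L.map fun c => siteLaw d ν (LegSet p c.1 c.2)).prod :=
            (measure_mono fun ω hω => hω.1).trans (valid_prob ν p L hcond.1)
          rw [if_pos hcond.2.2.2.2, wt_prod ν i0 p b g L hcond.2.1]
          refine mul_le_mul' (mul_le_mul' ?_ ?_) hle
          · exact pow_le_pow_right_of_le_one' hb hcond.2.2.1
          · exact pow_le_pow_right' hg (by have := hcond.2.2.2.1; omega)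
        · have : A L = ∅ := by
            rw [Set.eq_empty_iff_forall_notMem]
            intro ω hω
            exact hcond hω.2
          rw [this]
          simp
    _ ≤ C := list_sum _ _ hC _

end

end Pool.Agent.H592F
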