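import Mathlib
import Pool.Agent.H592F.Chain

set_option autoImplicit false
open MeasureTheory ProbabilityTheory Filter
open scoped ENNReal

namespace Pool.Agent.H592F

noncomputable section

variable {d : ℕ}

/-- law of the paths and coins of a site -/
def pathLaw (d : ℕ) [NeZero d] : Measure ((ℕ × ℕ → Fin d × Bool) × (ℕ × ℕ → unitInterval)) :=
  (Measure.infinitePi fun _ : ℕ × ℕ => uD d).prod
    (Measure.infinitePi fun _ : ℕ × ℕ => (volume : Measure unitInterval))

instance (d : ℕ) [NeZero d] : IsProbabilityMeasure (pathLaw d) := by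
  unfold pathLaw
  infer_instance

/-- displacement as a function of paths and coins -/
def pdisp (p : ℝ) (i τ : ℕ) (b : (ℕ × ℕ → Fin d × Bool) × (ℕ × ℕ → unitInterval)) : Site d :=
  disp ((0, b) : SiteData d) p i τ

theorem pdisp_eq (p : ℝ) (i τ m : ℕ) (b : (ℕ × ℕ → Fin d × Bool) × (ℕ × ℕ → unitInterval)) :
    disp ((m, b) : SiteData d) p i τ = pdisp p i τ b := rfl

theorem pdisp_meas (p : ℝ) (i τ : ℕ) : Measurable (pdisp (d := d) p i τ) := by
  have h : Measurable fun b : (ℕ × ℕ → Fin d × Bool) × (ℕ × ℕ → unitInterval) =>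
    ((0, b) : SiteData d) := measurable_prodMk_left
  exact (disp_meas p i τ).comp h

theorem leg_prob_le [NeZero d] (m : ℕ) (p : ℝ) (v : Site d) (τ : ℕ) :
    siteLaw d (PMF.pure m) (LegSet p v τ)
      ≤ ∑ i ∈ Finset.range m, pathLaw d {b | pdisp p i τ b = v} := by
  rw [siteLaw_pure d m _ (leg_meas p v τ)]
  refine (measure_mono (t := ⋃ i ∈ Finset.range m, {b | pdisp p i τ b = v}) ?_).trans
    (measure_biUnion_finset_le _ _)
  rintro b ⟨i, hi, hb⟩
  rw [Set.mem_iUnion₂]
  exact ⟨i, Finset.mem_range.mpr hi, hb⟩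

theorem disp_le_steps (a : SiteData d) (p : ℝ) (i u : ℕ) (i0 : Fin d) :
    disp a p i u i0 ≤ stepsMade a p i u := by
  have h1 := dist1_sum (0 : Site d) 0 (stepsMade a p i u) (fun k => a.2.1 (i, k))
  rw [dist1_self, zero_add, zero_add] at h1
  refine le_trans ?_ h1
  unfold dist1
  simp only [Pi.zero_apply, sub_zero]
  exact (le_abs_self _).trans (Finset.single_le_sum (f := fun j => |disp a p i u j|)
    (fun j _ => abs_nonneg _) (Finset.mem_univ i0))

open Classical in
/-- factor of a coin -/
def fc (p : ℝ) (β : ℝ≥0∞) (k0 k : ℕ × ℕ) (u : unitInterval) : ℝ≥0∞ :=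
  if (u : ℝ) ≤ p then 1 else (if k = k0 then 0 else β)

theorem fc_meas (p : ℝ) (β : ℝ≥0∞) (k0 k : ℕ × ℕ) : Measurable (fc p β k0 k) := by
  unfold fc
  exact Measurable.ite (coin_meas p) measurable_const measurable_const

theorem fc_int (p : ℝ) (h0 : 0 ≤ p) (h1 : p ≤ 1) (β : ℝ≥0∞) (k0 k : ℕ × ℕ) :
    ∫⁻ u, fc p β k0 k u ∂(volume : Measure unitInterval)
      ≤ ENNReal.ofReal p + (if k = k0 then 0 else β) := by
  classical
  calc ∫⁻ u, fc p β k0 k u ∂(volume : Measure unitInterval)
      ≤ ∫⁻ u, ({u : unitInterval | (u : ℝ) ≤ p}.indicator (fun _ => (1 : ℝ≥0∞)) u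
          + (if k = k0 then 0 else β)) ∂(volume : Measure unitInterval) := by
        refine lintegral_mono fun u => ?_
        unfold fc
        by_cases hu : (u : ℝ) ≤ p
        · rw [if_pos hu, Set.indicator_of_mem (show u ∈ {u : unitInterval | (u : ℝ) ≤ p} from hu)]
          exact le_self_add
        · rw [if_neg hu]
          exact le_add_self
    _ = _ := by
        rw [lintegral_add_right _ measurable_const, lintegral_indicator_const (coin_meas p),
          lintegral_const, measure_univ, coin_prob p h0 h1, one_mul, mul_one]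

theorem pointwise (β : ℝ≥0∞) (hβ : β ≤ 1) (p : ℝ) (i τ : ℕ) (i0 : Fin d)
    (b : (ℕ × ℕ → Fin d × Bool) × (ℕ × ℕ → unitInterval)) :
    (if pdisp p i τ b = 0 then 0 else β ^ ((τ : ℤ) - pdisp p i τ b i0).toNat)
      ≤ ∑ s ∈ Finset.range τ, ∏ k ∈ (Finset.range τ).image (fun s' => (i, s')),
          fc p β (i, s) k (b.2 k) := by
  classical
  split_ifs with hz
  · exact zero_le
  set S := (Finset.range τ).filter fun s => ((b.2 (i, s) : unitInterval) : ℝ) ≤ p with hS
  have hcard : stepsMade ((0, b) : SiteData d) p i τ = S.card := by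
    unfold stepsMade
    rw [hS]
  have hne : S.Nonempty := by
    rw [Finset.nonempty_iff_ne_empty]
    intro he
    apply hz
    unfold pdisp disp
    rw [hcard, he]
    simp
  obtain ⟨s, hs⟩ := hne
  have hsr : s ∈ Finset.range τ := (Finset.mem_filter.mp hs).1
  refine le_trans ?_ (Finset.single_le_sum (f := fun s => ∏ k ∈ (Finset.range τ).image
    (fun s' => (i, s')), fc p β (i, s) k (b.2 k)) (fun _ _ => zero_le) hsr)
  rw [Finset.prod_image (by intro x _ y _ h; simpa using h)]
  have h1 : ∀ s' ∈ Finset.range τ, fc p β (i, s) (i, s') (b.2 (i, s'))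
      = if ((b.2 (i, s') : unitInterval) : ℝ) ≤ p then 1 else β := by
    intro s' _
    unfold fc
    by_cases h2 : ((b.2 (i, s') : unitInterval) : ℝ) ≤ p
    · rw [if_pos h2, if_pos h2]
    · rw [if_neg h2, if_neg h2, if_neg]
      intro h3
      have h4 : s' = s := by simpa using h3
      rw [h4] at h2
      exact h2 (Finset.mem_filter.mp hs).2
  rw [Finset.prod_congr rfl h1, Finset.prod_ite, Finset.prod_const_one, one_mul, Finset.prod_const]
  refine pow_le_pow_right_of_le_one' hβ ?_
  have h5 := Finset.card_filter_add_card_filter_not (s := Finset.range τ)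
    (fun s => ((b.2 (i, s) : unitInterval) : ℝ) ≤ p)
  rw [Finset.card_range] at h5
  have h6 := disp_le_steps ((0, b) : SiteData d) p i τ i0
  rw [hcard] at h6
  have h7 : pdisp p i τ b i0 ≤ S.card := h6
  rw [← hS] at h5
  omega

theorem path_sum [NeZero d] (β : ℝ≥0∞) (hβ : β ≤ 1) (p : ℝ) (h0 : 0 ≤ p) (h1 : p ≤ 1)
    (i τ : ℕ) (i0 : Fin d) :
    ∑' v : Site d, (if v = 0 then 0 else β ^ ((τ : ℤ) - v i0).toNat)
        * pathLaw d {b | pdisp p i τ b = v}
      ≤ τ * (ENNReal.ofReal p * (ENNReal.ofReal p + β) ^ (τ - 1)) := by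
  classical
  have hmap : ∀ v : Site d, pathLaw d {b | pdisp p i τ b = v}
      = (pathLaw d).map (pdisp p i τ) {v} := by
    intro v
    rw [Measure.map_apply (pdisp_meas p i τ) (MeasurableSet.singleton v)]
    rfl
  simp_rw [hmap]
  rw [← lintegral_countable', lintegral_map (measurable_of_countable _) (pdisp_meas p i τ)]
  refine (lintegral_mono fun b => pointwise β hβ p i τ i0 b).trans ?_
  have hfs := lintegral_finsetSum (μ := pathLaw d) (Finset.range τ)
    (f := fun s b => ∏ k ∈ (Finset.range τ).image (fun s' => (i, s')), fc p β (i, s) k (b.2 k))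
    (fun s _ => Finset.measurable_prod _ fun k _ => (fc_meas p β (i, s) k).comp
    ((measurable_pi_apply k).comp measurable_snd))
  rw [hfs]
  have hterm : ∀ s ∈ Finset.range τ, ∫⁻ b, ∏ k ∈ (Finset.range τ).image (fun s' => (i, s')),
      fc p β (i, s) k (b.2 k) ∂(pathLaw d)
      ≤ ENNReal.ofReal p * (ENNReal.ofReal p + β) ^ (τ - 1) := by
    intro s hs
    have e1 : ∫⁻ b, ∏ k ∈ (Finset.range τ).image (fun s' => (i, s')),
        fc p β (i, s) k (b.2 k) ∂(pathLaw d)
        = ∫⁻ u : ℕ × ℕ → unitInterval, ∏ k ∈ (Finset.range τ).image (fun s' => (i, s')),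
            fc p β (i, s) k (u k)
            ∂(Measure.infinitePi fun _ : ℕ × ℕ => (volume : Measure unitInterval)) := by
      unfold pathLaw
      exact (measurePreserving_snd (μ := Measure.infinitePi fun _ : ℕ × ℕ => uD d)
        (ν := Measure.infinitePi fun _ : ℕ × ℕ => (volume : Measure unitInterval))).lintegral_comp
        (f := fun u : ℕ × ℕ → unitInterval => ∏ k ∈ (Finset.range τ).image (fun s' => (i, s')),
            fc p β (i, s) k (u k))
        (Finset.measurable_prod _ fun k _ => (fc_meas p β (i, s) k).comp (measurable_pi_apply k))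
    rw [e1, lint_prod (volume : Measure unitInterval) _ (fun k => fc p β (i, s) k)
      (fun k => fc_meas p β (i, s) k)]
    refine (Finset.prod_le_prod' fun k _ => fc_int p h0 h1 β (i, s) k).trans ?_
    have hmem : (i, s) ∈ (Finset.range τ).image (fun s' => (i, s')) :=
      Finset.mem_image_of_mem _ hs
    rw [← Finset.mul_prod_erase _ _ hmem, if_pos rfl, add_zero]
    have h2 : ∀ k ∈ ((Finset.range τ).image (fun s' => (i, s'))).erase (i, s),
        (ENNReal.ofReal p + (if k = (i, s) then 0 else β)) = ENNReal.ofReal p + β := by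
      intro k hk
      rw [if_neg (Finset.ne_of_mem_erase hk)]
    rw [Finset.prod_congr rfl h2, Finset.prod_const, Finset.card_erase_of_mem hmem,
      Finset.card_image_of_injective _ (by intro a b h; simpa using h), Finset.card_range]
  refine (Finset.sum_le_sum hterm).trans ?_
  rw [Finset.sum_const, Finset.card_range, nsmul_eq_mul]

theorem leg_sum [NeZero d] (m : ℕ) (β : ℝ≥0∞) (hβ : β ≤ 1) (p : ℝ) (h0 : 0 ≤ p) (h1 : p ≤ 1)
    (τ : ℕ) (i0 : Fin d) :
    ∑' v : Site d, (if v = 0 then 0 else β ^ ((τ : ℤ) - v i0).toNat)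
        * siteLaw d (PMF.pure m) (LegSet p v τ)
      ≤ m * (τ * (ENNReal.ofReal p * (ENNReal.ofReal p + β) ^ (τ - 1))) := by
  classical
  calc ∑' v : Site d, (if v = 0 then 0 else β ^ ((τ : ℤ) - v i0).toNat)
        * siteLaw d (PMF.pure m) (LegSet p v τ)
      ≤ ∑' v : Site d, ∑ i ∈ Finset.range m, (if v = 0 then 0 else β ^ ((τ : ℤ) - v i0).toNat)
        * pathLaw d {b | pdisp p i τ b = v} := by
        refine ENNReal.tsum_le_tsum fun v => ?_
        rw [← Finset.mul_sum]
        gcongr
        exact leg_prob_le m p v τ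
    _ = ∑ i ∈ Finset.range m, ∑' v : Site d, (if v = 0 then 0 else β ^ ((τ : ℤ) - v i0).toNat)
        * pathLaw d {b | pdisp p i τ b = v} := Summable.tsum_finsetSum fun _ _ => ENNReal.summable
    _ ≤ ∑ i ∈ Finset.range m, τ * (ENNReal.ofReal p * (ENNReal.ofReal p + β) ^ (τ - 1)) :=
        Finset.sum_le_sum fun i _ => path_sum β hβ p h0 h1 i τ i0
    _ = _ := by rw [Finset.sum_const, Finset.card_range, nsmul_eq_mul]

theorem unit_ne_zero (e : Fin d × Bool) : unitVec e ≠ (0 : Site d) := by
  intro h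
  have := congrFun h e.1
  unfold unitVec at this
  rw [Pi.single_eq_same] at this
  split_ifs at this <;> simp at this

/-- one time unit -/
theorem one_step {p : ℝ} {v : Site d} {a : SiteData d} (h : a ∈ LegSet p v 1) (hv : v ≠ 0) :
    ∃ e, v = unitVec e ∧ a ∈ JumpSet p e := by
  obtain ⟨i, hi, hd⟩ := h
  have h1 : stepsMade a p i 1 = if ((a.2.2 (i, 0) : unitInterval) : ℝ) ≤ p then 1 else 0 := by
    unfold stepsMade
    rw [Finset.range_one, Finset.filter_singleton]
    split_ifs <;> rfl
  by_cases h2 : ((a.2.2 (i, 0) : unitInterval) : ℝ) ≤ p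
  · rw [if_pos h2] at h1
    refine ⟨a.2.1 (i, 0), ?_, i, hi, h2, rfl⟩
    rw [← hd]
    unfold disp
    rw [h1, Finset.sum_range_one]
  · rw [if_neg h2] at h1
    exfalso
    apply hv
    rw [← hd]
    unfold disp
    rw [h1, Finset.sum_range_zero]

theorem unit_coord {e : Fin d × Bool} {i0 : Fin d} (h : 0 < unitVec e i0) : e = (i0, true) := by
  obtain ⟨j, σ⟩ := e
  unfold unitVec at h
  by_cases hj : i0 = j
  · subst hj
    rw [Pi.single_eq_same] at h
    cases σ
    · simp at h
    · rfl
  · rw [Pi.single_eq_of_ne hj] at h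
    simp at h

theorem wt_sum [NeZero d] (m : ℕ) (p : ℝ) (h0 : 0 ≤ p) (h1 : p ≤ 1) (i0 : Fin d) (β g : ℝ≥0∞)
    (hβ : β ≤ 1) (hx : (ENNReal.ofReal p + β) * g ≤ 4⁻¹) :
    ∑' c, Wt (PMF.pure m) i0 p β g c
      ≤ g * (ENNReal.ofReal (1 - (1 - p / (2 * d)) ^ m) + β * (m * ENNReal.ofReal p))
        + (m * ENNReal.ofReal p) * g * (4 * ((ENNReal.ofReal p + β) * g)) := by
  classical
  set P := ENNReal.ofReal p with hP
  set x := (P + β) * g with hxdef
  have hd : 0 < d := Nat.pos_of_ne_zero (NeZero.ne d)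
  have hd' : (1 : ℝ) ≤ d := by exact_mod_cast hd
  set T : ℕ → ℝ≥0∞ := fun τ => ∑' v : Site d, Wt (PMF.pure m) i0 p β g (v, τ) with hT
  have e0 : ∑' c, Wt (PMF.pure m) i0 p β g c = ∑' τ, T τ := by
    rw [ENNReal.tsum_prod', ENNReal.tsum_comm]
  have e1 : ∑' τ, T τ = T 0 + (T 1 + ∑' k, T (k + 2)) := by
    rw [tsum_eq_zero_add' ENNReal.summable, tsum_eq_zero_add' ENNReal.summable]
  have hT0 : T 0 = 0 := by
    rw [hT]
    simp only
    refine ENNReal.tsum_eq_zero.mpr fun v => ?_
    unfold Wt
    rw [if_pos (Or.inr rfl)]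
  have hT1 : T 1 ≤ g * (ENNReal.ofReal (1 - (1 - p / (2 * d)) ^ m) + β * (m * P)) := by
    rw [hT]
    simp only
    rw [ENNReal.tsum_eq_add_tsum_ite (unitVec (i0, true)), mul_add]
    refine add_le_add ?_ ?_
    · unfold Wt
      rw [if_neg (by push Not; exact ⟨unit_ne_zero _, by simp⟩)]
      have hcoord : (unitVec (i0, true) : Site d) i0 = 1 := by
        unfold unitVec; rw [Pi.single_eq_same]; simp
      simp only
      rw [hcoord]
      have : (((1 : ℕ) : ℤ) - 1).toNat = 0 := by simp
      rw [this, pow_zero, one_mul, pow_one]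
      gcongr
      have hsub : LegSet p (unitVec (i0, true)) 1 ⊆ JumpSet (d := d) p (i0, true) := by
        intro a ha
        obtain ⟨e, he, hje⟩ := one_step ha (unit_ne_zero _)
        have : e = (i0, true) := by
          refine unit_coord (i0 := i0) ?_
          rw [← he, hcoord]; norm_num
        rwa [this] at hje
      refine (measure_mono hsub).trans ?_
      have h2 := jump_prob m p h0 h1 ((i0, true) : Fin d × Bool)
      have h3 := prob_compl_eq_one_sub (μ := siteLaw d (PMF.pure m)) (jump_meas p (i0, true)).compl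
      rw [compl_compl] at h3
      rw [h3, h2, ENNReal.ofReal_sub _ (by
        refine pow_nonneg ?_ _
        have : p / (2 * (d : ℝ)) ≤ 1 := by
          rw [div_le_one (by positivity)]
          linarith
        linarith), ENNReal.ofReal_one]
    · refine le_trans (ENNReal.tsum_le_tsum (g := fun v : Site d => (g * β) *
        ((if v = 0 then 0 else (1 : ℝ≥0∞) ^ (((1 : ℕ) : ℤ) - v i0).toNat)
              * siteLaw d (PMF.pure m) (LegSet p v 1))) fun v => ?_) ?_
      · split_ifs with hv1 hv2 hv2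
        · exact zero_le
        · exact zero_le
        · unfold Wt
          rw [if_pos (Or.inl hv2)]
          exact zero_le
        · unfold Wt
          rw [if_neg (by push Not; exact ⟨hv2, by simp⟩), one_pow, one_mul]
          simp only
          rcases Set.eq_empty_or_nonempty (LegSet p v 1 : Set (SiteData d)) with hemp | ⟨a, ha⟩
          · rw [hemp, measure_empty, mul_zero]
            exact zero_le
          · obtain ⟨e, he, -⟩ := one_step ha hv2
            have h4 : v i0 ≤ 0 := by
              by_contra hcon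
              rw [not_le] at hcon
              rw [he] at hcon
              rw [unit_coord hcon] at he
              exact hv1 he
            refine mul_le_mul' ?_ le_rfl
            rw [pow_one, mul_comm]
            refine mul_le_mul' le_rfl ?_
            calc β ^ (((1 : ℕ) : ℤ) - v i0).toNat ≤ β ^ 1 :=
                  pow_le_pow_right_of_le_one' hβ (by omega)
              _ = β := pow_one _
      calc _ = (g * β) * ∑' v : Site d, ((if v = 0 then 0 else (1 : ℝ≥0∞) ^ (((1 : ℕ) : ℤ) - v i0).toNat)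
              * siteLaw d (PMF.pure m) (LegSet p v 1)) := ENNReal.tsum_mul_left
        _ ≤ (g * β) * (m * ((1 : ℕ) * (P * (P + 1) ^ (1 - 1)))) := by
            gcongr
            exact leg_sum m 1 le_rfl p h0 h1 1 i0
        _ = g * (β * (m * P)) := by
            simp
            ring
  have hTk : ∀ k, T (k + 2) ≤ (m * P) * g * (2 * x) ^ (k + 1) := by
    intro k
    rw [hT]
    simp only
    calc ∑' v : Site d, Wt (PMF.pure m) i0 p β g (v, k + 2)
        ≤ ∑' v : Site d, g ^ (k + 2) * ((if v = 0 then 0 else β ^ (((k + 2 : ℕ) : ℤ) - v i0).toNat)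
            * siteLaw d (PMF.pure m) (LegSet p v (k + 2))) := by
          refine ENNReal.tsum_le_tsum fun v => ?_
          unfold Wt
          by_cases hv : v = 0
          · rw [if_pos (Or.inl hv)]
            exact zero_le
          · rw [if_neg (by push Not; exact ⟨hv, by simp⟩), if_neg hv]
            refine le_of_eq ?_
            simp only
            ring
      _ = g ^ (k + 2) * ∑' v : Site d, ((if v = 0 then 0 else β ^ (((k + 2 : ℕ) : ℤ) - v i0).toNat)
            * siteLaw d (PMF.pure m) (LegSet p v (k + 2))) := ENNReal.tsum_mul_left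
      _ ≤ g ^ (k + 2) * (m * ((k + 2 : ℕ) * (P * (P + β) ^ (k + 2 - 1)))) := by
          gcongr
          exact leg_sum m β hβ p h0 h1 (k + 2) i0
      _ = (m * P) * g * ((k + 2 : ℕ) * x ^ (k + 1)) := by
          rw [show k + 2 - 1 = k + 1 by omega, hxdef, mul_pow]
          ring
      _ ≤ (m * P) * g * (2 * x) ^ (k + 1) := by
          rw [mul_pow 2 x (k + 1)]
          refine mul_le_mul' le_rfl (mul_le_mul' ?_ le_rfl)
          have h5 : k + 2 ≤ 2 ^ (k + 1) := Nat.lt_two_pow_self (n := k + 1)
          calc ((k + 2 : ℕ) : ℝ≥0∞) ≤ ((2 ^ (k + 1) : ℕ) : ℝ≥0∞) := by exact_mod_cast h5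
            _ = 2 ^ (k + 1) := by push_cast; rfl
  have hsum : ∑' k, T (k + 2) ≤ (m * P) * g * (4 * x) := by
    calc ∑' k, T (k + 2) ≤ ∑' k, (m * P) * g * (2 * x) ^ (k + 1) := ENNReal.tsum_le_tsum hTk
      _ = (m * P) * g * ∑' k, (2 * x) ^ (k + 1) := ENNReal.tsum_mul_left
      _ ≤ (m * P) * g * ∑' k, (2 * x) * (2⁻¹) ^ k := by
          gcongr with k
          rw [pow_succ, mul_comm]
          gcongr
          calc 2 * x ≤ 2 * 4⁻¹ := by gcongr
            _ = 2⁻¹ := by
              rw [show (4 : ℝ≥0∞) = 2 * 2 by norm_num, ENNReal.mul_inv (by norm_num) (by norm_num),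
                ← mul_assoc, ENNReal.mul_inv_cancel (by norm_num) (by norm_num), one_mul]
      _ = (m * P) * g * ((2 * x) * 2) := by
          rw [ENNReal.tsum_mul_left, ENNReal.tsum_geometric]
          congr 2
          rw [ENNReal.one_sub_inv_two, inv_inv]
      _ = (m * P) * g * (4 * x) := by ring
  rw [e0, e1, hT0, zero_add]
  exact add_le_add hT1 hsum

end

end Pool.Agent.H592F
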