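import Mathlib
import Pool.Agent.H592F.Weight

set_option autoImplicit false
open MeasureTheory ProbabilityTheory Filter
open scoped ENNReal

namespace Pool.Agent.H592F

noncomputable section

variable {d : ℕ}

/-- the event that the process is fast along multiples of `M` -/
def Fast (i0 : Fin d) (p : ℝ) (M q : ℕ) : Set (Config d) :=
  {ω | ∃ y ∈ discovered ω p (M * q), ((M * q : ℕ) : ℤ) - q ≤ y i0}

theorem fast_prob [NeZero d] (i0 : Fin d) (m : ℕ) (p c0 b δ : ℝ) (hp : 0 ≤ p) (hp1 : p ≤ 1)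
    (hmp : m * p = c0) (hδ0 : 0 < δ) (hδ1 : δ ≤ 1) (hδ : δ ≤ (1 - p / (2 * d)) ^ m)
    (hb : b = δ / (136 * (c0 + 1))) (hpb : p ≤ b) (M' : ℕ) (hM : 2 ≤ b * (1 + δ / 2) ^ M') (q : ℕ) :
    frogLaw d (PMF.pure m) (Fast i0 p (M' + 1) q) ≤ ENNReal.ofReal (4 / δ) * (2⁻¹) ^ q := by
  have hc0 : 0 ≤ c0 := by rw [← hmp]; positivity
  have hb0 : 0 < b := by rw [hb]; positivity
  have hbc : b * (136 * (c0 + 1)) = δ := by rw [hb]; field_simp
  have hb1 : b ≤ 1 / 136 := by nlinarith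
  set g : ℝ := 1 + δ / 2 with hg
  have hg1 : 1 ≤ g := by rw [hg]; linarith
  have hg2 : g ≤ 3 / 2 := by rw [hg]; linarith
  have hg0 : 0 ≤ g := by linarith
  have hβ : ENNReal.ofReal b ≤ 1 := by
    rw [← ENNReal.ofReal_one]; exact ENNReal.ofReal_le_ofReal (by linarith)
  have hgE : 1 ≤ ENNReal.ofReal g := by
    rw [← ENNReal.ofReal_one]; exact ENNReal.ofReal_le_ofReal hg1
  have hquarter : ENNReal.ofReal (1 / 4) = 4⁻¹ := by
    rw [one_div, ENNReal.ofReal_inv_of_pos (by norm_num)]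
    congr 1
    rw [show (4 : ℝ) = ((4 : ℕ) : ℝ) by norm_num, ENNReal.ofReal_natCast]
    rfl
  have hx : (ENNReal.ofReal p + ENNReal.ofReal b) * ENNReal.ofReal g ≤ 4⁻¹ := by
    rw [← ENNReal.ofReal_add hp hb0.le, ← ENNReal.ofReal_mul (by linarith), ← hquarter]
    refine ENNReal.ofReal_le_ofReal ?_
    nlinarith
  have hsum := wt_sum m p hp hp1 i0 (ENNReal.ofReal b) (ENNReal.ofReal g) hβ hx
  have hmP : (m : ℝ≥0∞) * ENNReal.ofReal p = ENNReal.ofReal c0 := by
    rw [← ENNReal.ofReal_natCast, ← ENNReal.ofReal_mul (Nat.cast_nonneg m), hmp]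
  have hfour : (4 : ℝ≥0∞) = ENNReal.ofReal 4 := by
    rw [show (4 : ℝ) = ((4 : ℕ) : ℝ) by norm_num, ENNReal.ofReal_natCast]
    rfl
  have hle : ∑' c, Wt (PMF.pure m) i0 p (ENNReal.ofReal b) (ENNReal.ofReal g) c
      ≤ ENNReal.ofReal (1 - δ / 4) := by
    refine hsum.trans ?_
    rw [hmP, hfour, ← ENNReal.ofReal_add hp hb0.le, ← ENNReal.ofReal_mul hb0.le,
      ← ENNReal.ofReal_mul (by linarith : 0 ≤ p + b), ← ENNReal.ofReal_mul (by norm_num : (0 : ℝ) ≤ 4),
      ← ENNReal.ofReal_mul hc0, ← ENNReal.ofReal_mul (mul_nonneg hc0 hg0)]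
    calc ENNReal.ofReal g * (ENNReal.ofReal (1 - (1 - p / (2 * d)) ^ m) + ENNReal.ofReal (b * c0))
          + ENNReal.ofReal (c0 * g * (4 * ((p + b) * g)))
        ≤ ENNReal.ofReal g * (ENNReal.ofReal (1 - δ) + ENNReal.ofReal (b * c0))
          + ENNReal.ofReal (c0 * g * (4 * ((p + b) * g))) := by
          gcongr
      _ = ENNReal.ofReal (g * ((1 - δ) + b * c0) + c0 * g * (4 * ((p + b) * g))) := by
          rw [← ENNReal.ofReal_add (by linarith) (by positivity), ← ENNReal.ofReal_mul hg0,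
            ← ENNReal.ofReal_add (by
              refine mul_nonneg hg0 (add_nonneg (by linarith) (by positivity))) (by positivity)]
      _ ≤ ENNReal.ofReal (1 - δ / 4) := by
          refine ENNReal.ofReal_le_ofReal ?_
          have h1 : g * (1 - δ) ≤ 1 - δ / 2 := by rw [hg]; nlinarith
          have hbc0 : 0 ≤ b * c0 := by positivity
          have h2 : g * (b * c0) ≤ 3 / 2 * (b * c0) := by gcongr
          have h3 : c0 * g * (4 * ((p + b) * g)) ≤ c0 * (3 / 2) * (4 * ((b + b) * (3 / 2))) := by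
            gcongr
          have h4 : b * c0 ≤ δ / 136 := by
            have : b * (136 * (c0 + 1)) = 136 * (b * c0) + 136 * b := by ring
            linarith
          nlinarith
  have hC : 1 + (∑' c, Wt (PMF.pure m) i0 p (ENNReal.ofReal b) (ENNReal.ofReal g) c)
      * ENNReal.ofReal (4 / δ) ≤ ENNReal.ofReal (4 / δ) := by
    calc _ ≤ 1 + ENNReal.ofReal (1 - δ / 4) * ENNReal.ofReal (4 / δ) := by gcongr
      _ = ENNReal.ofReal (4 / δ) := by
        rw [← ENNReal.ofReal_mul (by linarith), ← ENNReal.ofReal_one,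
          ← ENNReal.ofReal_add (by norm_num) (by
            refine mul_nonneg (by linarith) (by positivity))]
        congr 1
        field_simp
        ring
  have hfm := first_moment (PMF.pure m) i0 p (ENNReal.ofReal b) (ENNReal.ofReal g)
    (ENNReal.ofReal (4 / δ)) hβ hgE hC ((M' + 1) * q) q
  have hexp : (M' + 1) * q - q = M' * q := by
    rw [add_mul, one_mul, Nat.add_sub_cancel]
  rw [hexp, pow_mul, ← mul_pow] at hfm
  have htwo : (2 : ℝ≥0∞) ≤ ENNReal.ofReal b * ENNReal.ofReal g ^ M' := by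
    rw [← ENNReal.ofReal_pow hg0, ← ENNReal.ofReal_mul hb0.le]
    rw [show (2 : ℝ≥0∞) = ENNReal.ofReal 2 by
      rw [show (2 : ℝ) = ((2 : ℕ) : ℝ) by norm_num, ENNReal.ofReal_natCast]; rfl]
    exact ENNReal.ofReal_le_ofReal hM
  have h5 : (2 : ℝ≥0∞) ^ q * frogLaw d (PMF.pure m) (Fast i0 p (M' + 1) q)
      ≤ ENNReal.ofReal (4 / δ) := by
    refine le_trans ?_ hfm
    refine mul_le_mul' (pow_le_pow_left' htwo q) le_rfl
  calc frogLaw d (PMF.pure m) (Fast i0 p (M' + 1) q)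
      = ((2 : ℝ≥0∞) ^ q * frogLaw d (PMF.pure m) (Fast i0 p (M' + 1) q)) * (2⁻¹) ^ q := by
        rw [mul_comm, ← mul_assoc, ← mul_pow, ENNReal.inv_mul_cancel (by norm_num) (by norm_num),
          one_pow, one_mul]
    _ ≤ _ := by gcongr

theorem fast_ae [NeZero d] (i0 : Fin d) (m : ℕ) (p C : ℝ) (M : ℕ)
    (h : ∀ q, frogLaw d (PMF.pure m) (Fast i0 p M q) ≤ ENNReal.ofReal C * (2⁻¹) ^ q) :
    ∀ᵐ ω ∂(frogLaw d (PMF.pure m)), ∀ Q : ℕ, ∃ q ≥ Q, ω ∉ Fast i0 p M q := by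
  rw [ae_all_iff]
  intro Q
  rw [ae_iff]
  have hlim : Tendsto (fun q : ℕ => ENNReal.ofReal C * (2⁻¹) ^ q) atTop (nhds 0) := by
    have h1 := ENNReal.Tendsto.const_mul (a := ENNReal.ofReal C)
      (ENNReal.tendsto_pow_atTop_nhds_zero_of_lt_one (r := 2⁻¹) (by
        rw [ENNReal.inv_lt_one]; norm_num)) (Or.inr ENNReal.ofReal_ne_top)
    rwa [mul_zero] at h1
  refine le_antisymm ?_ zero_le
  refine ge_of_tendsto hlim ?_
  filter_upwards [eventually_ge_atTop Q] with q hq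
  refine le_trans (measure_mono fun ω hω => ?_) (h q)
  rw [Set.mem_ofPred_eq] at hω
  push Not at hω
  exact hω q hq

/-- the slow shape is narrow -/
theorem shape_slow [NeZero d] (i0 : Fin d) (m : ℕ) (hm : 0 < m) (p : ℝ) (M : ℕ) (hM : 0 < M)
    (hae : ∀ᵐ ω ∂(frogLaw d (PMF.pure m)), ∀ Q : ℕ, ∃ q ≥ Q, ω ∉ Fast i0 p M q)
    (A : Set (Fin d → ℝ)) (hA : IsShape d (PMF.pure m) p A) :
    ∀ x ∈ A, x i0 < 1 - 1 / (2 * M) := by
  intro x hx
  by_contra hcon
  rw [not_lt] at hcon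
  obtain ⟨-, -, hsh⟩ := hA
  have hMr : (1 : ℝ) ≤ M := by exact_mod_cast hM
  obtain ⟨ω, hω1, hω2, hω3⟩ := (hae.and (hsh.and (particles_ae d m))).exists
  have h1 := hω2 (by rw [hω3]; exact hm) (1 / (4 * M)) (by positivity) (by
    rw [div_lt_one (by positivity)]
    linarith)
  rw [eventually_atTop] at h1
  obtain ⟨N0, hN0⟩ := h1
  obtain ⟨q, hq, hqf⟩ := hω1 (max N0 2)
  have hq1 : N0 ≤ q := le_trans (le_max_left _ _) hq
  have hq2 : 2 ≤ q := le_trans (le_max_right _ _) hq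
  have hq2r : (2 : ℝ) ≤ q := by exact_mod_cast hq2
  obtain ⟨h2, -⟩ := hN0 (M * q) (le_trans hq1 (Nat.le_mul_of_pos_left q hM))
  obtain ⟨y, hy, hyu⟩ := h2 x hx
  apply hqf
  refine ⟨y, hy, ?_⟩
  have h3 := (hyu i0).2
  simp only [Pi.smul_apply, smul_eq_mul] at h3
  push_cast at h3
  have h4 : ((M : ℝ) * q) - q ≤ y i0 := by
    have hM0 : (0 : ℝ) < M := by linarith
    have h5 : (1 - 1 / (4 * (M : ℝ))) * (M * q) * (1 - 1 / (2 * M))
        ≤ (1 - 1 / (4 * (M : ℝ))) * (M * q) * x i0 := by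
      refine mul_le_mul_of_nonneg_left hcon ?_
      refine mul_nonneg ?_ (by positivity)
      have : 1 / (4 * (M : ℝ)) ≤ 1 := by
        rw [div_le_one (by positivity)]
        linarith
      linarith
    have h6 : (1 - 1 / (4 * (M : ℝ))) * (M * q) * (1 - 1 / (2 * M))
        = M * q - 3 / 4 * q + q / (8 * M) := by
      field_simp
      ring
    have h7 : (0 : ℝ) ≤ q / (8 * M) := by positivity
    linarith
  have h8 : (((M * q : ℕ) : ℤ) - q : ℤ) = ((M : ℤ) * q - q) := by push_cast; ring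
  rw [h8]
  exact_mod_cast h4

/-- the fast shape is wide -/
theorem shape_fast [NeZero d] {i0 i1 : Fin d} (hne : i0 ≠ i1) (m : ℕ) (hm : 0 < m) (p : ℝ)
    (h0 : 0 ≤ p) (h1 : p ≤ 1) (M : ℕ) (hM : 0 < M)
    (hε : ((4 * M - 1 : ℕ) + 2 : ℝ) * (1 - p / (2 * d)) ^ m ≤ 1 / 884101250)
    (A : Set (Fin d → ℝ)) (hA : IsShape d (PMF.pure m) p A) :
    ∃ x ∈ A, 1 - 1 / (2 * M) ≤ x i0 := by
  obtain ⟨-, -, hsh⟩ := hA
  set K := 4 * M - 1 with hK
  have hK1 : K + 1 = 4 * M := by omega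
  have hMr : (1 : ℝ) ≤ M := by exact_mod_cast hM
  have hM0 : (0 : ℝ) < M := by linarith
  have hex : ∃ ω, ω ∉ Exc i0 i1 p K 0 true ∧ ((1 ≤ (ω 0).1 → ∀ ε : ℝ, 0 < ε → ε < 1 →
      ∀ᶠ n : ℕ in atTop,
      (∀ a ∈ A, ((1 - ε) * n) • a ∈ fatten (discovered ω p n)) ∧
      (∀ u ∈ fatten (discovered ω p n), ∃ a ∈ A, u = ((1 + ε) * n) • a)) ∧ ∀ x, (ω x).1 = m) := by
    by_contra hcon
    push Not at hcon
    have hall := hsh.and (particles_ae d m)
    have h2 : ∀ᵐ ω ∂(frogLaw d (PMF.pure m)), ω ∈ Exc i0 i1 p K 0 true := by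
      filter_upwards [hall] with ω hω
      by_contra hE
      obtain ⟨x, hx⟩ := hcon ω hE hω.1
      exact hx (hω.2 x)
    have h3 := measure_mono_ae (μ := frogLaw d (PMF.pure m)) (s := Set.univ)
      (t := Exc i0 i1 p K 0 true) (by
        filter_upwards [h2] with ω hω _
        exact hω)
    rw [measure_univ] at h3
    have h4 := h3.trans (exc_prob hne m p h0 h1 K 0 true hε)
    rw [← ENNReal.ofReal_one, ENNReal.ofReal_le_ofReal_iff (by norm_num)] at h4
    norm_num at h4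
  obtain ⟨ω, hE, hω, hωm⟩ := hex
  have h2 := hω (by rw [hωm]; exact hm) (1 / (4 * M)) (by positivity) (by
    rw [div_lt_one (by positivity)]
    linarith)
  rw [eventually_atTop] at h2
  obtain ⟨N0, hN0⟩ := h2
  obtain ⟨v, hv, hN⟩ := exc_wet hE (N0 + 1)
  have hst := wet_state (ω := ω) (p := fun _ => p) (tie := fun _ _ => true) (j := true)
    (init := oneStart) (fun a b => oneStart_ahead hne a b) (by simp [oneStart]) hv
  obtain ⟨a, b, rfl, hs⟩ := hst
  simp only at hN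
  have hab : N0 + 1 ≤ a + b := by exact_mod_cast hN
  have hn : (K + 1) * a + K * b + b = (K + 1) * (a + b) := by ring
  rw [hn] at hs
  set n := (K + 1) * (a + b) with hndef
  set y : Site d := pt i0 i1 0 true (((K + 1) * a + K * b : ℕ) : ℤ) b with hy
  have hyd : y ∈ discovered ω p n := by
    show state ω (fun _ => p) (fun _ _ => true) oneStart n y ≠ none
    rw [hs]
    simp
  obtain ⟨-, h3⟩ := hN0 n (by
    have : a + b ≤ n := by rw [hndef]; exact Nat.le_mul_of_pos_left _ (by omega)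
    omega)
  have hfat : (fun j => (y j : ℝ)) ∈ fatten (discovered ω p n) := by
    refine ⟨y, hyd, fun j => ⟨by linarith, by linarith⟩⟩
  obtain ⟨a1, ha1, he⟩ := h3 _ hfat
  refine ⟨a1, ha1, ?_⟩
  have h4 := congrFun he i0
  simp only [Pi.smul_apply, smul_eq_mul] at h4
  have h5 : y i0 = (((K + 1) * a + K * b : ℕ) : ℤ) := by
    rw [hy, pt_i0 hne]
    simp [sg]
  rw [h5] at h4
  have hKr : (K : ℝ) + 1 = 4 * M := by exact_mod_cast hK1
  have hnr : (n : ℝ) = (4 * M) * (a + b) := by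
    rw [hndef]
    push_cast
    rw [hKr]
  have habr : (1 : ℝ) ≤ a + b := by exact_mod_cast (by omega : 1 ≤ a + b)
  have hn0 : (0 : ℝ) < n := by rw [hnr]; positivity
  have h6 : (1 - 1 / (4 * M)) * (n : ℝ) ≤ (1 + 1 / (4 * M)) * n * a1 i0 := by
    rw [← h4, hnr]
    push_cast
    have h7 : (K : ℝ) = 4 * M - 1 := by linarith
    rw [h7]
    have h8 : (1 - 1 / (4 * (M : ℝ))) * (4 * M * (a + b)) = (4 * M - 1) * (a + b) := by
      field_simp
    rw [h8]
    have ha0 : (0 : ℝ) ≤ a := Nat.cast_nonneg a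
    nlinarith
  have h9 : (1 - 1 / (4 * (M : ℝ))) ≤ (1 + 1 / (4 * M)) * a1 i0 := by
    have : (1 - 1 / (4 * (M : ℝ))) * n ≤ ((1 + 1 / (4 * M)) * a1 i0) * n := by
      calc _ ≤ (1 + 1 / (4 * M)) * n * a1 i0 := h6
        _ = _ := by ring
    exact le_of_mul_le_mul_right this hn0
  set e : ℝ := 1 / (4 * M) with he'
  have he0 : 0 < e := by rw [he']; positivity
  have he2 : 1 / (2 * (M : ℝ)) = 2 * e := by rw [he']; field_simp; norm_num
  rw [he2]
  by_contra hcon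
  rw [not_le] at hcon
  have : (1 + e) * a1 i0 < (1 + e) * (1 - 2 * e) := mul_lt_mul_of_pos_left hcon (by linarith)
  nlinarith

end

end Pool.Agent.H592F
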